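import Pool.Agent.Helper55.BW.Lin

/-!
# The helical grid

The nodes `0, …, 2 n - 1` form a path; the edge `T τ` (`0 < τ < 2 n`) joins the nodes `τ - 1` and `τ`.
Further edges `D i` (`s ≤ i < n`) join the nodes `2 (i - s)` and `2 i + 1`. There are also the edges
`T 0`, `T (2 n)` and `D i` for `i < s` and for `n ≤ i < n + s`, which lead out of the graph.
For `n = s ^ 2` the system of the flow equations has a haven of order `s - 1`.
-/

set_option autoImplicit false
set_option linter.unusedSectionVars false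

namespace Pool.Agent.Helper55.BW

open Finset

/-- The edges: `inl τ` is `T τ`, `inr i` is `D i`. -/
abbrev Ed (n s : ℕ) : Type := Fin (2 * n + 1) ⊕ Fin (n + s)

variable {n s : ℕ}

/-- The edges which do not lead out of the graph. -/
def intl : Ed n s → Prop
  | .inl τ => 0 < τ.1 ∧ τ.1 < 2 * n
  | .inr i => s ≤ i.1 ∧ i.1 < n

instance (e : Ed n s) : Decidable (intl e) := by
  cases e <;> (unfold intl; infer_instance)

/-- The edge of the path that enters the node `v`. -/
def inE (v : Fin (2 * n)) : Ed n s := .inl ⟨v.1, by omega⟩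

/-- The edge of the path that leaves the node `v`. -/
def outE (v : Fin (2 * n)) : Ed n s := .inl ⟨v.1 + 1, by omega⟩

/-- The number of the third edge at the node `v`. -/
def sideN (s v : ℕ) : ℕ := if v % 2 = 0 then v / 2 + s else v / 2

/-- The third edge at the node `v`. -/
def sideE (v : Fin (2 * n)) : Ed n s :=
  .inr ⟨sideN s v.1, by have := v.2; unfold sideN; split_ifs <;> omega⟩

variable {F : Type} [Field F]

/-- The sign of the third edge. -/
def sgn (F : Type) [Field F] (v : ℕ) : F := if v % 2 = 0 then 1 else -1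

/-- The matrix of the flow equations. -/
def inc (F : Type) [Field F] (n s : ℕ) (v : Fin (2 * n)) (e : Ed n s) : F :=
  if intl e then (if e = outE v then 1 else 0) - (if e = inE v then 1 else 0) -
    (if e = sideE v then sgn F v.1 else 0) else 0

/-- The values are replaced by zero at the edges that lead out. -/
def bar (M : Ed n s → F) (e : Ed n s) : F := if intl e then M e else 0

theorem bar_add (M M' : Ed n s → F) (e : Ed n s) : bar (M + M') e = bar M e + bar M' e := by
  unfold bar
  split_ifs <;> simp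

theorem bar_zero (e : Ed n s) : bar (0 : Ed n s → F) e = 0 := by
  unfold bar
  split_ifs <;> simp

theorem sum_inc (v : Fin (2 * n)) (M : Ed n s → F) :
    ∑ e, inc F n s v e * M e =
      bar M (outE v) - bar M (inE v) - sgn F v.1 * bar M (sideE v) := by
  have h : ∀ e, inc F n s v e * M e = (if e = outE v then bar M e else 0) -
      (if e = inE v then bar M e else 0) - (if e = sideE v then sgn F v.1 * bar M e else 0) := by
    intro e
    unfold inc bar
    by_cases he : intl e
    · simp only [he, if_true]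
      split_ifs <;> ring
    · simp [he]
  rw [Finset.sum_congr rfl fun e _ => h e, Finset.sum_sub_distrib, Finset.sum_sub_distrib]
  simp only [Finset.sum_ite_eq', Finset.mem_univ, if_true]

/-- A function on the nodes as a function on the natural numbers. -/
def ext (y : Fin (2 * n) → F) (v : ℕ) : F := if h : v < 2 * n then y ⟨v, h⟩ else 0

theorem ext_coe (y : Fin (2 * n) → F) (v : Fin (2 * n)) : ext y v.1 = y v := by
  unfold ext
  rw [dif_pos v.2]

theorem col_T (y : Fin (2 * n) → F) (τ : Fin (2 * n + 1)) (h0 : 0 < τ.1) (h1 : τ.1 < 2 * n) :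
    col (inc F n s) y (.inl τ) = ext y (τ.1 - 1) - ext y τ.1 := by
  have hi : intl (.inl τ : Ed n s) := ⟨h0, h1⟩
  unfold col
  have h : ∀ v : Fin (2 * n), y v * inc F n s v (.inl τ) =
      (if v = ⟨τ.1 - 1, by omega⟩ then y v else 0) - (if v = ⟨τ.1, h1⟩ then y v else 0) := by
    intro v
    unfold inc
    rw [if_pos hi]
    have e1 : (Sum.inl τ : Ed n s) = outE v ↔ v = ⟨τ.1 - 1, by omega⟩ := by
      unfold outE
      rw [Sum.inl.injEq, Fin.ext_iff, Fin.ext_iff]
      show τ.1 = v.1 + 1 ↔ v.1 = τ.1 - 1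
      omega
    have e2 : (Sum.inl τ : Ed n s) = inE v ↔ v = ⟨τ.1, h1⟩ := by
      unfold inE
      rw [Sum.inl.injEq, Fin.ext_iff, Fin.ext_iff]
      show τ.1 = v.1 ↔ v.1 = τ.1
      omega
    have e3 : ¬ (Sum.inl τ : Ed n s) = sideE v := by
      unfold sideE
      exact Sum.inl_ne_inr
    simp only [e1, e2, e3, if_false]
    split_ifs <;> ring
  rw [Finset.sum_congr rfl fun v _ => h v, Finset.sum_sub_distrib]
  simp only [Finset.sum_ite_eq', Finset.mem_univ, if_true]
  unfold ext
  rw [dif_pos h1, dif_pos (by omega)]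

theorem sideN_eq {i v : ℕ} (h0 : s ≤ i) : i = sideN s v ↔ v = 2 * (i - s) ∨ v = 2 * i + 1 := by
  unfold sideN
  split_ifs <;> omega

theorem col_D (y : Fin (2 * n) → F) (i : Fin (n + s)) (h0 : s ≤ i.1) (h1 : i.1 < n) :
    col (inc F n s) y (.inr i) = ext y (2 * i.1 + 1) - ext y (2 * (i.1 - s)) := by
  have hi : intl (.inr i : Ed n s) := ⟨h0, h1⟩
  unfold col
  have h : ∀ v : Fin (2 * n), y v * inc F n s v (.inr i) =
      (if v = ⟨2 * i.1 + 1, by omega⟩ then y v else 0) -
        (if v = ⟨2 * (i.1 - s), by omega⟩ then y v else 0) := by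
    intro v
    unfold inc
    rw [if_pos hi]
    have e1 : ¬ (Sum.inr i : Ed n s) = outE v := by
      unfold outE
      exact Sum.inr_ne_inl
    have e2 : ¬ (Sum.inr i : Ed n s) = inE v := by
      unfold inE
      exact Sum.inr_ne_inl
    have e3 : (Sum.inr i : Ed n s) = sideE v ↔
        v.1 = 2 * (i.1 - s) ∨ v.1 = 2 * i.1 + 1 := by
      unfold sideE
      rw [Sum.inr.injEq, Fin.ext_iff]
      exact sideN_eq h0
    have e4 : v = ⟨2 * i.1 + 1, by omega⟩ ↔ v.1 = 2 * i.1 + 1 := by
      rw [Fin.ext_iff]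
    have e5 : v = ⟨2 * (i.1 - s), by omega⟩ ↔ v.1 = 2 * (i.1 - s) := by
      rw [Fin.ext_iff]
    simp only [e1, e2, e3, e4, e5, if_false]
    unfold sgn
    by_cases c1 : v.1 = 2 * i.1 + 1
    · have c2 : ¬ v.1 = 2 * (i.1 - s) := by omega
      have c3 : ¬ v.1 % 2 = 0 := by omega
      rw [if_pos (Or.inr c1), if_neg c3, if_pos c1, if_neg c2]
      ring
    · by_cases c2 : v.1 = 2 * (i.1 - s)
      · have c3 : v.1 % 2 = 0 := by omega
        rw [if_pos (Or.inl c2), if_pos c3, if_neg c1, if_pos c2]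
        ring
      · rw [if_neg (by tauto), if_neg c1, if_neg c2]
        ring
  rw [Finset.sum_congr rfl fun v _ => h v, Finset.sum_sub_distrib]
  simp only [Finset.sum_ite_eq', Finset.mem_univ, if_true]
  unfold ext
  rw [dif_pos (by omega), dif_pos (by omega)]

/-- The number of the row of an edge (`s` if there is none). -/
def rowOf : Ed n s → ℕ
  | .inl τ => if τ.1 % (2 * s) = 0 then s else τ.1 / (2 * s)
  | .inr _ => s

/-- The number of the column of an edge (`s` if there is none). -/
def colOf : Ed n s → ℕ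
  | .inl τ => if τ.1 % 2 = 1 then (τ.1 / 2) % s else s
  | .inr i => i.1 % s

/-- The set `W` contains no edge of the row with the number `r`. -/
def FreeRow (W : Finset (Ed n s)) (r : ℕ) : Prop := ∀ e ∈ W, rowOf e ≠ r

/-- The set `W` contains no edge of the column with the number `c`. -/
def FreeCol (W : Finset (Ed n s)) (c : ℕ) : Prop := ∀ e ∈ W, colOf e ≠ c

theorem exists_free (f : Ed n s → ℕ) (W : Finset (Ed n s)) (hW : W.card < s) :
    ∃ r < s, ∀ e ∈ W, f e ≠ r := by
  classical
  have h : (W.image f).card < (Finset.range s).card := by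
    rw [Finset.card_range]
    exact lt_of_le_of_lt Finset.card_image_le hW
  obtain ⟨r, hr, hr'⟩ := Finset.exists_mem_notMem_of_card_lt_card h
  refine ⟨r, Finset.mem_range.1 hr, fun e he h1 => hr' ?_⟩
  rw [← h1]
  exact Finset.mem_image_of_mem f he

theorem row_const {y : ℕ → F} {a b : ℕ} (h : ∀ τ, a < τ → τ < b → y (τ - 1) = y τ) :
    ∀ v, a ≤ v → v < b → y v = y a := by
  intro v
  induction v with
  | zero =>
    intro h1 _
    have : a = 0 := by omega
    rw [this]
  | succ v ih =>
    intro h1 h2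
    by_cases h3 : a = v + 1
    · rw [h3]
    · rw [← h (v + 1) (by omega) h2]
      show y v = y a
      exact ih (by omega) (by omega)

theorem col_const {y : ℕ → F} {c m : ℕ} (hs : 0 < s)
    (h1 : ∀ j, j < m → j % s = c → y (2 * j) = y (2 * j + 1))
    (h2 : ∀ i, s ≤ i → i < m → i % s = c → y (2 * i + 1) = y (2 * (i - s))) :
    ∀ j, j < m → j % s = c → y (2 * j) = y (2 * c) := by
  intro j
  induction j using Nat.strong_induction_on with
  | _ j ih =>
    intro h3 h4
    by_cases h5 : j < s
    · rw [Nat.mod_eq_of_lt h5] at h4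
      rw [h4]
    · rw [h1 j h3 h4, h2 j (by omega) h3 h4]
      refine ih (j - s) (by omega) (by omega) ?_
      rw [← h4]
      exact (Nat.mod_eq_sub_mod (by omega)).symm

/-- The node `v` is in the row `r`. -/
def InRow (s r v : ℕ) : Prop := v / (2 * s) = r

/-- The node `v` is in the column `c`. -/
def InCol (s c v : ℕ) : Prop := (v / 2) % s = c

theorem rowOf_T {r : ℕ} (τ : Fin (2 * n + 1)) (h1 : 2 * s * r < τ.1)
    (h2 : τ.1 < 2 * s * r + 2 * s) : rowOf (.inl τ : Ed n s) = r := by
  have hs : 0 < 2 * s := by omega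
  have e1 : τ.1 = 2 * s * r + (τ.1 - 2 * s * r) := by omega
  have e2 : τ.1 % (2 * s) = τ.1 - 2 * s * r := by
    rw [e1, Nat.mul_add_mod, Nat.mod_eq_of_lt (by omega)]
    omega
  have e3 : τ.1 / (2 * s) = r := by
    rw [e1, Nat.mul_add_div hs, Nat.div_eq_of_lt (by omega)]
    rfl
  show (if τ.1 % (2 * s) = 0 then s else τ.1 / (2 * s)) = r
  rw [if_neg (by omega), e3]

theorem ext_add (y z : Fin (2 * n) → F) (v : ℕ) : ext (y + z) v = ext y v + ext z v := by
  unfold ext
  split_ifs <;> simp

/-- The flow equations on the grid with `s` rows and `s` columns have a haven. -/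
def zsub (F : Type) [Field F] (s : ℕ) (W : Finset (Ed (s * s) s)) :
    Submodule F (Fin (2 * (s * s)) → F) where
  carrier := {y | W.card < s → (∀ r < s, FreeRow W r → ∀ v, InRow s r v → ext y v = 0) ∧
    (∀ c < s, FreeCol W c → ∀ v, InCol s c v → ext y v = 0)}
  add_mem' := by
    intro y z hy hz hW
    obtain ⟨y1, y2⟩ := hy hW
    obtain ⟨z1, z2⟩ := hz hW
    refine ⟨fun r hr hf v hv => ?_, fun c hc hf v hv => ?_⟩
    · rw [ext_add, y1 r hr hf v hv, z1 r hr hf v hv, add_zero]
    · rw [ext_add, y2 c hc hf v hv, z2 c hc hf v hv, add_zero]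
  zero_mem' := by
    intro _
    refine ⟨fun r hr hf v hv => ?_, fun c hc hf v hv => ?_⟩ <;>
    · unfold ext
      split_ifs <;> simp
  smul_mem' := by
    intro a y hy hW
    obtain ⟨y1, y2⟩ := hy hW
    have h : ∀ v, ext (a • y) v = a * ext y v := by
      intro v
      unfold ext
      split_ifs <;> simp
    refine ⟨fun r hr hf v hv => ?_, fun c hc hf v hv => ?_⟩
    · rw [h, y1 r hr hf v hv, mul_zero]
    · rw [h, y2 c hc hf v hv, mul_zero]

theorem mem_zsub {s : ℕ} {W : Finset (Ed (s * s) s)} {y : Fin (2 * (s * s)) → F} :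
    y ∈ zsub F s W ↔ (W.card < s → (∀ r < s, FreeRow W r → ∀ v, InRow s r v → ext y v = 0) ∧
    (∀ c < s, FreeCol W c → ∀ v, InCol s c v → ext y v = 0)) := Iff.rfl

theorem row_le {r : ℕ} (hr : r < s) : 2 * s * r + 2 * s ≤ 2 * (s * s) := by
  have h : s * (r + 1) ≤ s * s := Nat.mul_le_mul_left s hr
  have h2 : 2 * s * r + 2 * s = 2 * (s * (r + 1)) := by ring
  omega

/-- In a free row the function is constant. -/
theorem row_zero {r : ℕ} (hs : 0 < s) {W : Finset (Ed (s * s) s)}
    {y : Fin (2 * (s * s)) → F} (hr : r < s) (hf : FreeRow W r)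
    (hy : ∀ e, e ∉ W → col (inc F (s * s) s) y e = 0) (v : ℕ) (hv : InRow s r v) :
    ext y v = ext y (2 * s * r) := by
  have hl := row_le hr
  have h1 : 2 * s * r ≤ v ∧ v < 2 * s * r + 2 * s := by
    have h := Nat.div_add_mod v (2 * s)
    have h' := Nat.mod_lt v (show 0 < 2 * s by omega)
    rw [show v / (2 * s) = r from hv] at h
    omega
  refine row_const (b := 2 * s * r + 2 * s) (fun τ h2 h3 => ?_) v h1.1 h1.2
  have h4 : τ < 2 * (s * s) + 1 := by omega
  have h5 := col_T (s := s) y ⟨τ, h4⟩ (by show 0 < τ; omega) (by show τ < 2 * (s * s); omega)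
  rw [hy _ fun hW => hf _ hW (rowOf_T ⟨τ, h4⟩ h2 h3)] at h5
  exact (sub_eq_zero.1 h5.symm)

theorem ext_out (y : Fin (2 * n) → F) {v : ℕ} (h : 2 * n ≤ v) : ext y v = 0 := by
  unfold ext
  rw [dif_neg (by omega)]

/-- In a free column the function is constant. -/
theorem col_zero {c : ℕ} (hs : 0 < s) {W : Finset (Ed (s * s) s)}
    {y : Fin (2 * (s * s)) → F} (hf : FreeCol W c)
    (hy : ∀ e, e ∉ W → col (inc F (s * s) s) y e = 0) (v : ℕ) (hv : InCol s c v)
    (hv' : v < 2 * (s * s)) : ext y v = ext y (2 * c) := by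
  have h1 : ∀ j, j < s * s → j % s = c → ext y (2 * j) = ext y (2 * j + 1) := by
    intro j hj hj'
    have h4 : 2 * j + 1 < 2 * (s * s) + 1 := by omega
    have h5 := col_T (s := s) y ⟨2 * j + 1, h4⟩ (by show 0 < 2 * j + 1; omega)
      (by show 2 * j + 1 < 2 * (s * s); omega)
    rw [hy _ fun hW => hf _ hW (by
      show (if (2 * j + 1) % 2 = 1 then ((2 * j + 1) / 2) % s else s) = c
      rw [if_pos (by omega), ← hj']
      congr 1
      omega)] at h5
    exact (sub_eq_zero.1 h5.symm)
  have h2 : ∀ i, s ≤ i → i < s * s → i % s = c → ext y (2 * i + 1) = ext y (2 * (i - s)) := by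
    intro i hi hi' hi''
    have h5 := col_D y ⟨i, by omega⟩ hi hi'
    have h6 : colOf (.inr ⟨i, by omega⟩ : Ed (s * s) s) = c := hi''
    rw [hy _ fun hW => hf _ hW h6] at h5
    exact (sub_eq_zero.1 h5.symm)
  have h3 := col_const hs h1 h2
  have h4 := h3 (v / 2) (by omega) hv
  rcases Nat.even_or_odd' v with ⟨j, hj | hj⟩
  · rw [show v / 2 = j by omega] at h4
    rw [hj, h4]
  · rw [show v / 2 = j by omega] at h4
    rw [hj, ← h1 j (by omega) (by rw [← hv]; congr 1; omega), h4]

/-- The common node of a row and a column. -/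
theorem meet {r c : ℕ} (hs : 0 < s) (hr : r < s) (hc : c < s) :
    InRow s r (2 * (s * r + c)) ∧ InCol s c (2 * (s * r + c)) ∧ 2 * (s * r + c) < 2 * (s * s) := by
  have hl := row_le hr
  have e1 : 2 * (s * r + c) = 2 * s * r + 2 * c := by ring
  refine ⟨?_, ?_, by omega⟩
  · unfold InRow
    rw [e1, Nat.mul_add_div (by omega), Nat.div_eq_of_lt (by omega)]
    rfl
  · unfold InCol
    rw [Nat.mul_div_cancel_left _ (by norm_num), Nat.mul_add_mod, Nat.mod_eq_of_lt hc]

theorem free_anti {W W' : Finset (Ed n s)} (h : W ≤ W') {f : Ed n s → ℕ} {r : ℕ}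
    (hf : ∀ e ∈ W', f e ≠ r) : ∀ e ∈ W, f e ≠ r := fun e he => hf e (h he)

/-- The haven of the grid. -/
def haven (F : Type) [Field F] (s : ℕ) (hs : 0 < s) : Haven (inc F (s * s) s) (s - 1) where
  Z := zsub F s
  mono W W' h y hy := by
    rw [mem_zsub] at hy ⊢
    intro hW'
    obtain ⟨h1, h2⟩ := hy (lt_of_le_of_lt (Finset.card_le_card h) hW')
    exact ⟨fun r hr hf => h1 r hr (free_anti h hf), fun c hc hf => h2 c hc (free_anti h hf)⟩
  key W W' h hK y hy hcol := by
    rw [mem_zsub] at hy ⊢
    intro _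
    have hW' : W'.card < s := by omega
    obtain ⟨h1, h2⟩ := hy hW'
    obtain ⟨r', hr', hf'⟩ := exists_free rowOf W' hW'
    obtain ⟨c', hc', hg'⟩ := exists_free colOf W' hW'
    refine ⟨fun r hr hf v hv => ?_, fun c hc hf v hv => ?_⟩
    · obtain ⟨m1, m2, m3⟩ := meet hs hr hc'
      rw [row_zero hs hr hf hcol v hv, ← row_zero hs hr hf hcol _ m1]
      exact h2 c' hc' hg' _ m2
    · by_cases hv' : v < 2 * (s * s)
      · obtain ⟨m1, m2, m3⟩ := meet hs hr' hc
        rw [col_zero hs hf hcol v hv hv', ← col_zero hs hf hcol _ m2 m3]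
        exact h1 r' hr' hf' _ m1
      · exact ext_out y (by omega)
  bot y hy _ := by
    rw [mem_zsub] at hy
    obtain ⟨h1, -⟩ := hy (by rw [Finset.card_empty]; exact hs)
    funext v
    rw [← ext_coe y v]
    refine h1 (v.1 / (2 * s)) ?_ (fun e he => absurd he (Finset.notMem_empty e)) v.1 rfl
    rw [Nat.div_lt_iff_lt_mul (by omega)]
    have := v.2
    have e : s * (2 * s) = 2 * (s * s) := by ring
    omega

theorem ext_single (v w : ℕ) (hv : v < 2 * n) (h : w ≠ v) :
    ext (Pi.single (⟨v, hv⟩ : Fin (2 * n)) (1 : F)) w = 0 := by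
  unfold ext
  split_ifs with h1
  · refine Pi.single_eq_of_ne (fun h2 => h ?_) _
    exact congrArg Fin.val h2
  · rfl

/-- A node is not far away from a set of edges that contains its edges of the path. -/
theorem single_mem (hs : 0 < s) {W : Finset (Ed (s * s) s)} (v : Fin (2 * (s * s)))
    (h1 : inE v ∈ W) (h2 : outE v ∈ W) : Pi.single v (1 : F) ∈ zsub F s W := by
  rw [mem_zsub]
  intro _
  refine ⟨fun r hr hf w hw => ext_single v.1 w v.2 ?_, fun c hc hf w hw => ext_single v.1 w v.2 ?_⟩
  · rintro rfl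
    have h := Nat.div_add_mod v.1 (2 * s)
    have h' := Nat.mod_lt v.1 (show 0 < 2 * s by omega)
    rw [show v.1 / (2 * s) = r from hw] at h
    by_cases h3 : v.1 = 2 * s * r
    · refine hf _ h2 (rowOf_T _ ?_ ?_)
      · show 2 * s * r < v.1 + 1
        omega
      · show v.1 + 1 < 2 * s * r + 2 * s
        omega
    · refine hf _ h1 (rowOf_T _ ?_ ?_)
      · show 2 * s * r < v.1
        omega
      · show v.1 < 2 * s * r + 2 * s
        omega
  · rintro rfl
    by_cases h3 : v.1 % 2 = 0
    · refine hf _ h2 ?_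
      show (if (v.1 + 1) % 2 = 1 then ((v.1 + 1) / 2) % s else s) = c
      rw [if_pos (by omega), ← (show (v.1 / 2) % s = c from hw)]
      congr 1
      omega
    · refine hf _ h1 ?_
      show (if v.1 % 2 = 1 then (v.1 / 2) % s else s) = c
      rw [if_pos (by omega)]
      exact hw

/-- The flow equation at a node all of whose edges are in the level. -/
theorem node_eq (hs : 0 < s) (b : Fin (2 * (s * s)) → F) {W : Finset (Ed (s * s) s)}
    {M : Ed (s * s) s → F} (hM : M ∈ ((haven F s hs).sys b).Sol W) (v : Fin (2 * (s * s)))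
    (h1 : inE v ∈ W) (h2 : outE v ∈ W) (h3 : sideE v ∈ W) :
    bar M (outE v) = bar M (inE v) + sgn F v.1 * bar M (sideE v) + b v := by
  have h := (haven F s hs).sys_node b hM v (by
    intro e he
    unfold inc
    split_ifs with c1 c2 c3 c4 c5 c6
    all_goals first | rfl | (exfalso; subst_vars; contradiction) | simp) (single_mem hs v h1 h2)
  rw [sum_inc] at h
  rw [← h]
  ring

end Pool.Agent.Helper55.BW
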