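import Pool.Graph.R_seed8.TH658.Sos.Sys

/-!
# Linear systems with a haven

`I : Q → E → F` is the matrix of a linear system with the equations `∑ e, I v e * M e = b v`
(`v : Q`) for `M : E → F`. A haven of order `K` assigns to every set `W` of columns a space `Z W` of
combinations of the equations (those that vanish far away from `W`), such that combinations which
only involve the columns of `W` and belong to `Z W'`, for a larger set `W'` with at most `K`
elements, belong to `Z W`. Then the equations obtained from the combinations in `Z W` which only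
involve the columns of `W` form a locally consistent affine system.
-/

set_option autoImplicit false
set_option linter.unusedSectionVars false

namespace Pool.Agent.Helper55.BW

open Finset Module Pool.Agent.TH658.Sos

variable {F Q E : Type} [Field F] [Fintype Q] [Fintype E] [DecidableEq E]

/-- The column sum of the matrix with the coefficients `y`. -/
def col (I : Q → E → F) (y : Q → F) (e : E) : F := ∑ v, y v * I v e

theorem col_add (I : Q → E → F) (y z : Q → F) (e : E) :
    col I (y + z) e = col I y e + col I z e := by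
  unfold col
  rw [← Finset.sum_add_distrib]
  refine Finset.sum_congr rfl fun v _ => ?_
  rw [Pi.add_apply, add_mul]

theorem col_smul (I : Q → E → F) (c : F) (y : Q → F) (e : E) :
    col I (c • y) e = c * col I y e := by
  unfold col
  rw [Finset.mul_sum]
  refine Finset.sum_congr rfl fun v _ => ?_
  rw [Pi.smul_apply, smul_eq_mul, mul_assoc]

theorem col_pair (I : Q → E → F) (y : Q → F) (M : E → F) :
    ∑ e, col I y e * M e = ∑ v, y v * ∑ e, I v e * M e := by
  unfold col
  simp only [Finset.sum_mul, Finset.mul_sum]
  rw [Finset.sum_comm]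
  exact Finset.sum_congr rfl fun v _ => Finset.sum_congr rfl fun e _ => by ring

/-- A haven of order `K`. -/
structure Haven (I : Q → E → F) (K : ℕ) where
  /-- the combinations of equations which vanish far away from `W` -/
  Z : Finset E → Submodule F (Q → F)
  mono : ∀ W W', W ≤ W' → Z W ≤ Z W'
  key : ∀ W W', W ≤ W' → W'.card ≤ K → ∀ y ∈ Z W', (∀ e, e ∉ W → col I y e = 0) → y ∈ Z W
  bot : ∀ y ∈ Z ∅, (∀ e, col I y e = 0) → y = 0

variable {I : Q → E → F} {K : ℕ}

/-- The solutions can be extended. -/
theorem Haven.extend (h : Haven I K) (b : Q → F) {W W' : Finset E} (hW : W ≤ W')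
    (hK : W'.card ≤ K) {M : E → F}
    (hM : ∀ y ∈ h.Z W, (∀ e, e ∉ W → col I y e = 0) → ∑ e, col I y e * M e = ∑ v, y v * b v) :
    ∃ M' : E → F, (∀ y ∈ h.Z W', (∀ e, e ∉ W' → col I y e = 0) →
      ∑ e, col I y e * M' e = ∑ v, y v * b v) ∧ ∀ e ∈ W, M' e = M e := by
  classical
  let C : Submodule F (Q → F) :=
    { carrier := {y | y ∈ h.Z W' ∧ ∀ e, e ∉ W' → col I y e = 0}
      add_mem' := by
        rintro y z ⟨h1, h2⟩ ⟨h3, h4⟩
        refine ⟨(h.Z W').add_mem h1 h3, fun e he => ?_⟩
        rw [col_add, h2 e he, h4 e he, add_zero]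
      zero_mem' := ⟨(h.Z W').zero_mem, fun e _ => by simp [col]⟩
      smul_mem' := by
        rintro c y ⟨h1, h2⟩
        refine ⟨(h.Z W').smul_mem c h1, fun e he => ?_⟩
        rw [col_smul, h2 e he, mul_zero] }
  let f : C →ₗ[F] ({e // e ∉ W} → F) :=
    { toFun := fun y e => col I y.1 e.1
      map_add' := fun y z => by
        funext e
        exact col_add I y.1 z.1 e.1
      map_smul' := fun c y => by
        funext e
        exact col_smul I c y.1 e.1 }
  let g : Dual F C :=
    { toFun := fun y => ∑ v, y.1 v * b v - ∑ e, col I y.1 e * M e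
      map_add' := fun y z => by
        have h1 : ∀ v, (y + z).1 v * b v = y.1 v * b v + z.1 v * b v := fun v => add_mul _ _ _
        have h2 : ∀ e, col I (y + z).1 e * M e =
            col I y.1 e * M e + col I z.1 e * M e := fun e => by
          rw [← add_mul, ← col_add]
          rfl
        rw [Finset.sum_congr rfl fun v _ => h1 v, Finset.sum_congr rfl fun e _ => h2 e,
          Finset.sum_add_distrib, Finset.sum_add_distrib]
        ring
      map_smul' := fun c y => by
        have h1 : ∀ v, (c • y).1 v * b v = c * (y.1 v * b v) := fun v => mul_assoc _ _ _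
        have h2 : ∀ e, col I (c • y).1 e * M e = c * (col I y.1 e * M e) := fun e => by
          rw [← mul_assoc, ← col_smul]
          rfl
        rw [Finset.sum_congr rfl fun v _ => h1 v, Finset.sum_congr rfl fun e _ => h2 e,
          ← Finset.mul_sum, ← Finset.mul_sum, RingHom.id_apply, smul_eq_mul]
        ring }
  have hg : g ∈ (LinearMap.ker f).dualAnnihilator := by
    rw [Submodule.mem_dualAnnihilator]
    intro y hy
    have h1 : ∀ e, e ∉ W → col I y.1 e = 0 := fun e he =>
      congrFun (LinearMap.mem_ker.1 hy) ⟨e, he⟩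
    show ∑ v, y.1 v * b v - ∑ e, col I y.1 e * M e = 0
    rw [hM y.1 (h.key W W' hW hK y.1 y.2.1 h1) h1, sub_self]
  rw [← LinearMap.range_dualMap_eq_dualAnnihilator_ker] at hg
  obtain ⟨ψ, hψ⟩ := hg
  let N : E → F := fun e => if h : e ∉ W then ψ (Pi.single ⟨e, h⟩ 1) else 0
  have hN : ∀ y : C, ∑ e, col I y.1 e * N e = g y := by
    intro y
    have h1 : g y = ψ (f y) := by rw [← hψ]; rfl
    have h2 : f y = ∑ e : {e // e ∉ W}, f y e • (Pi.single e 1 : {e // e ∉ W} → F) := by
      funext e
      rw [Finset.sum_apply]
      simp [Pi.single_apply]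
    rw [h1, h2, map_sum]
    simp only [map_smul, smul_eq_mul]
    have h3 : ∀ e, col I y.1 e * N e = if h : e ∉ W then
        f y ⟨e, h⟩ * ψ (Pi.single ⟨e, h⟩ 1) else 0 := by
      intro e
      by_cases h : e ∉ W
      · rw [dif_pos h]
        show col I y.1 e * (if h : e ∉ W then ψ (Pi.single ⟨e, h⟩ 1) else 0) = _
        rw [dif_pos h]
        rfl
      · rw [dif_neg h]
        show col I y.1 e * (if h : e ∉ W then ψ (Pi.single ⟨e, h⟩ 1) else 0) = _
        rw [dif_neg h, mul_zero]
    rw [Finset.sum_congr rfl fun e _ => h3 e, Finset.sum_dite]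
    simp only [Finset.sum_const_zero, add_zero]
    refine Finset.sum_nbij' (fun x => ⟨x.1, (Finset.mem_filter.1 x.2).2⟩)
      (fun x => ⟨x.1, Finset.mem_filter.2 ⟨Finset.mem_univ _, x.2⟩⟩) ?_ ?_ ?_ ?_ ?_
    · intro x _
      exact Finset.mem_univ _
    · intro x _
      exact Finset.mem_attach _ _
    · intro x _
      rfl
    · intro x _
      rfl
    · intro x _
      rfl
  refine ⟨fun e => M e + N e, fun y h1 h2 => ?_, fun e he => ?_⟩
  · simp only [mul_add]
    rw [Finset.sum_add_distrib, hN ⟨y, h1, h2⟩]
    show _ + (∑ v, y v * b v - ∑ e, col I y e * M e) = _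
    ring
  · show M e + (if h : e ∉ W then ψ (Pi.single ⟨e, h⟩ 1) else 0) = M e
    rw [dif_neg (not_not.2 he), add_zero]

/-- The locally consistent affine system of a linear system with a haven. -/
noncomputable def Haven.sys (h : Haven I K) (b : Q → F) : Sys (E → F) (Finset E) where
  N W :=
    { carrier := {M | ∀ e ∈ W, M e = 0}
      add_mem' := fun {M M'} h h' e he => by
        rw [Pi.add_apply, h e he, h' e he, add_zero]
      zero_mem' := fun e _ => rfl
      neg_mem' := fun {M} h e he => by
        rw [Pi.neg_apply, h e he, neg_zero] }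
  D W :=
    { carrier := {M | ∀ y ∈ h.Z W, (∀ e, e ∉ W → col I y e = 0) → ∑ e, col I y e * M e = 0}
      add_mem' := fun {M M'} h h' y h1 h2 => by
        simp only [Pi.add_apply, mul_add]
        rw [Finset.sum_add_distrib, h y h1 h2, h' y h1 h2, add_zero]
      zero_mem' := fun y _ _ => by simp
      neg_mem' := fun {M} h y h1 h2 => by
        simp only [Pi.neg_apply, mul_neg]
        rw [Finset.sum_neg_distrib, h y h1 h2, neg_zero] }
  Sol W := {M | ∀ y ∈ h.Z W, (∀ e, e ∉ W → col I y e = 0) →
        ∑ e, col I y e * M e = ∑ v, y v * b v}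
  size W := W.card
  K := K
  N_anti W W' h M hM e he := hM e (h he)
  D_anti W W' h' M hM y h1 h2 := hM y (h.mono W W' h' h1) fun e he => h2 e fun he' => he (h' he')
  Sol_anti W W' h' M hM y h1 h2 :=
    hM y (h.mono W W' h' h1) fun e he => h2 e fun he' => he (h' he')
  sol_iff W M M' hM := by
    constructor
    · intro h y h1 h2
      simp only [Pi.sub_apply, mul_sub]
      rw [Finset.sum_sub_distrib, h y h1 h2, hM y h1 h2, sub_self]
    · intro h y h1 h2
      have h3 := h y h1 h2
      simp only [Pi.sub_apply, mul_sub] at h3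
      rw [Finset.sum_sub_distrib, hM y h1 h2] at h3
      exact sub_eq_zero.1 h3
  size_bot := Finset.card_empty
  size_sup W W' := Finset.card_union_le W W'
  nonempty W hW := by
    obtain ⟨M', h', -⟩ := h.extend b (Finset.empty_subset W) hW (M := 0) (by
      intro y h1 h2
      rw [h.bot y h1 fun e => h2 e (Finset.notMem_empty e)]
      simp)
    exact ⟨M', h'⟩
  extend W W' h' hK M hM := by
    obtain ⟨M', h1, h2⟩ := h.extend b h' hK hM
    refine ⟨M', h1, fun e he => ?_⟩
    rw [Pi.sub_apply, h2 e he, sub_self]

/-- An equation all of whose columns are in the level, and whose index is not far away, holds. -/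
theorem Haven.sys_node [DecidableEq Q] (h : Haven I K) (b : Q → F) {W : Finset E} {M : E → F}
    (hM : M ∈ (h.sys b).Sol W) (v : Q) (hv : ∀ e, e ∉ W → I v e = 0)
    (hZ : Pi.single v (1 : F) ∈ h.Z W) : ∑ e, I v e * M e = b v := by
  have h0 : ∀ e, col I (Pi.single v (1 : F)) e = I v e := by
    intro e
    unfold col
    rw [Finset.sum_eq_single v]
    · rw [Pi.single_eq_same, one_mul]
    · intro w _ hw
      rw [Pi.single_eq_of_ne hw, zero_mul]
    · intro hh
      exact absurd (Finset.mem_univ v) hh
  have h1 := hM (Pi.single v 1) hZ (by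
    intro e he
    rw [h0]
    exact hv e he)
  simp only [h0] at h1
  rw [h1, Finset.sum_eq_single v]
  · rw [Pi.single_eq_same, one_mul]
  · intro w _ hw
    rw [Pi.single_eq_of_ne hw, zero_mul]
  · intro hh
    exact absurd (Finset.mem_univ v) hh

end Pool.Agent.Helper55.BW
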