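import Pool.Graph.R_seed8.TH658.Dg.Pe
import Pool.Graph.R_seed8.Y598.Circ.Game

/-!
# Local isomorphisms of a locally consistent affine system give a strategy in the pebble game
-/

set_option autoImplicit false
set_option linter.unusedSectionVars false

namespace Pool.Agent.Helper55.BW

open Pool.Agent.TH658.Sos Pool.Agent.TH658.Dg Pool.Agent.Y598.Circ Pool.Agent.W185.SRG Finset

variable {X L : Type} [AddCommGroup X] [SemilatticeSup L] [OrderBot L] {S : Sys X L}
  {V V' : Type} [Fintype V] [Fintype V'] {G : SimpleGraph V} {H : SimpleGraph V'}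

/-- The level of a tuple. -/
def lvl (A : Act S G.Adj H.Adj) {n : ℕ} (u : Fin n → V) : L := univ.sup fun i => A.lv (u i)

theorem lvl_size (A : Act S G.Adj H.Adj) {n : ℕ} (u : Fin n → V) :
    S.size (lvl A u) ≤ A.c * n := by
  unfold lvl
  have h : ∀ s : Finset (Fin n), S.size (s.sup fun i => A.lv (u i)) ≤ A.c * s.card := by
    classical
    intro s
    induction s using Finset.induction_on with
    | empty => simp [S.size_bot]
    | insert a s ha ih =>
      rw [Finset.sup_insert, Finset.card_insert_of_notMem ha]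
      have h1 := S.size_sup (A.lv (u a)) (s.sup fun i => A.lv (u i))
      have h2 := A.size (u a)
      rw [mul_add, mul_one]
      omega
  have := h univ
  rwa [Finset.card_univ, Fintype.card_fin] at this

theorem lvl_snoc (A : Act S G.Adj H.Adj) {n : ℕ} (u : Fin n → V) (x : V) :
    lvl A (Fin.snoc (α := fun _ => V) u x : Fin (n + 1) → V) = lvl A u ⊔ A.lv x := by
  unfold lvl
  apply le_antisymm
  · refine Finset.sup_le fun i _ => ?_
    refine Fin.lastCases ?_ (fun i => ?_) i
    · rw [Fin.snoc_last]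
      exact le_sup_right
    · rw [Fin.snoc_castSucc]
      exact (Finset.le_sup (f := fun i => A.lv (u i)) (mem_univ i)).trans le_sup_left
  · refine sup_le (Finset.sup_le fun i _ => ?_) ?_
    · have h := Finset.le_sup (f := fun i => A.lv
        ((Fin.snoc (α := fun _ => V) u x : Fin (n + 1) → V) i)) (mem_univ (Fin.castSucc i))
      rwa [Fin.snoc_castSucc] at h
    · have h := Finset.le_sup (f := fun i => A.lv
        ((Fin.snoc (α := fun _ => V) u x : Fin (n + 1) → V) i)) (mem_univ (Fin.last n))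
      rwa [Fin.snoc_last] at h

/-- The bijections of the duplicator: on every level an extension of the solution. -/
theorem exists_move (A : Act S G.Adj H.Adj) {W : L} {M : X} (hM : M ∈ S.Sol W)
    (hW : S.size W + A.c ≤ S.K) :
    ∃ φ : V ≃ V', ∀ x, ∃ M' ∈ S.Sol (W ⊔ A.lv x), M' - M ∈ S.N W ∧ φ x = A.b M' x := by
  classical
  have hex : ∀ ℓ : L, S.size ℓ ≤ A.c → ∃ M' ∈ S.Sol (W ⊔ ℓ), M' - M ∈ S.N W := by
    intro ℓ hℓ
    refine S.extend W (W ⊔ ℓ) le_sup_left ?_ M hM
    have := S.size_sup W ℓ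
    omega
  let F : L → X := fun ℓ => if h : S.size ℓ ≤ A.c then (hex ℓ h).choose else M
  have hF : ∀ x, F (A.lv x) ∈ S.Sol (W ⊔ A.lv x) ∧ F (A.lv x) - M ∈ S.N W := by
    intro x
    show (if h : S.size (A.lv x) ≤ A.c then (hex (A.lv x) h).choose else M) ∈ _ ∧
      (if h : S.size (A.lv x) ≤ A.c then (hex (A.lv x) h).choose else M) - M ∈ _
    rw [dif_pos (A.size x)]
    exact (hex (A.lv x) (A.size x)).choose_spec
  have hs : ∀ (N : X) (y : V'), A.lv ((A.b N).symm y) = A.lv' y := by
    intro N y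
    rw [← A.lev N, Equiv.apply_symm_apply]
  refine ⟨⟨fun x => A.b (F (A.lv x)) x, fun y => (A.b (F (A.lv' y))).symm y, ?_, ?_⟩, ?_⟩
  · intro x
    show (A.b (F (A.lv' (A.b (F (A.lv x)) x)))).symm (A.b (F (A.lv x)) x) = x
    rw [A.lev, Equiv.symm_apply_apply]
  · intro y
    show A.b (F (A.lv ((A.b (F (A.lv' y))).symm y))) ((A.b (F (A.lv' y))).symm y) = y
    rw [hs, Equiv.apply_symm_apply]
  · intro x
    exact ⟨F (A.lv x), (hF x).1, (hF x).2, rfl⟩

/-- The strategy. -/
def play (A : Act S G.Adj H.Adj) (k : ℕ) (hK : A.c * (k + 1) ≤ S.K) : Game k G H where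
  Good n u w := ∃ M ∈ S.Sol (lvl A u), ∀ i, w i = A.b M (u i)
  zero u w := by
    obtain ⟨M, hM⟩ := S.nonempty (lvl A u) (by
      have := lvl_size A u
      rw [mul_zero] at this
      omega)
    exact ⟨M, hM, fun i => Fin.elim0 i⟩
  ext n hn u w := by
    rintro ⟨M, hM, hw⟩
    obtain ⟨φ, hφ⟩ := exists_move A hM (by
      have h1 := lvl_size A u
      have h2 : A.c * n ≤ A.c * k := Nat.mul_le_mul_left _ hn
      rw [mul_add, mul_one] at hK
      omega)
    refine ⟨φ, fun x => ?_⟩
    obtain ⟨M', h1, h2, h3⟩ := hφ x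
    refine ⟨M', by rw [lvl_snoc]; exact h1, fun i => ?_⟩
    refine Fin.lastCases ?_ (fun i => ?_) i
    · rw [Fin.snoc_last, Fin.snoc_last]
      exact h3
    · rw [Fin.snoc_castSucc, Fin.snoc_castSucc, hw]
      have h4 := A.inv M (M' - M) (u i) (S.N_anti _ _
        (Finset.le_sup (f := fun i => A.lv (u i)) (mem_univ i)) h2)
      rw [add_sub_cancel] at h4
      exact h4.symm
  restr n m σ u w := by
    rintro ⟨M, hM, hw⟩
    refine ⟨M, S.Sol_anti _ _ ?_ hM, fun i => hw (σ i)⟩
    exact Finset.sup_le fun i _ => Finset.le_sup (f := fun i => A.lv (u i)) (mem_univ (σ i))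
  iso u w := by
    rintro ⟨M, hM, hw⟩
    unfold isoType
    refine Prod.ext ?_ ?_
    · funext i j
      show (u i = u j) = (w i = w j)
      rw [hw, hw, (A.b M).injective.eq_iff]
    · funext i j
      show G.Adj (u i) (u j) = H.Adj (w i) (w j)
      rw [hw, hw, eq_iff_iff]
      refine A.iso (u i) (u j) M (S.Sol_anti _ _ ?_ hM)
      exact sup_le (Finset.le_sup (f := fun i => A.lv (u i)) (mem_univ i))
        (Finset.le_sup (f := fun i => A.lv (u i)) (mem_univ j))

end Pool.Agent.Helper55.BW
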