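import Pool.Agent.Helper55.BW.Sum
import Pool.Agent.Helper55.BW.Play

/-!
# Comparability graphs of posets of bounded width
-/

set_option autoImplicit false
set_option linter.unusedSectionVars false

namespace Pool.Agent.Helper55.BW

open Pool.Agent.TH658.Sos Pool.Agent.TH658.Dg Pool.Agent.W185.SRG Finset

/-- `G` is the comparability graph of a strict partial order `r` on `V`, and `V` is the union of `w`
chains (the elements with `κ u = i`, for `i : Fin w`). In particular the order has width at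
most `w`. -/
def IsComparability {V : Type} (w : ℕ) (G : SimpleGraph V) : Prop :=
  ∃ (r : V → V → Prop) (κ : V → Fin w),
    (∀ u, ¬ r u u) ∧ (∀ u v x, r u v → r v x → r u x) ∧
    (∀ u v, G.Adj u v ↔ r u v ∨ r v u) ∧
    ∀ u v, κ u = κ v → u ≠ v → r u v ∨ r v u

/-- The methods that do not distinguish `G` and `H`: the `k`-dimensional Weisfeiler-Leman method, the
invertible-map test of dimension `k` over all fields of characteristic different from `p`, the
polynomial calculus of degree `k` over these fields and the Positivstellensatz calculus of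
degree `k`. -/
def Fooled (p k : ℕ) {V W : Type} [Fintype V] [Fintype W] (G : SimpleGraph V)
    (H : SimpleGraph W) : Prop :=
  WLEquivalent k G H ∧ IMEquiv p k G.Adj H.Adj ∧
  (∀ (K : Type) [Field K], (p : K) ≠ 0 → ¬ PCRefutes K G.Adj H.Adj k) ∧
  ¬ PosRefutes G.Adj H.Adj k

theorem fooled_of_act {X L : Type} [AddCommGroup X] [Fintype X] [SemilatticeSup L] [OrderBot L]
    {S : Sys X L} {V V' : Type} [Fintype V] [Fintype V'] {G : SimpleGraph V}
    {H : SimpleGraph V'} (A : Act S G.Adj H.Adj) (hA : A.Torsor) {p k r : ℕ} (hk : 1 ≤ k)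
    (hX : Fintype.card X = p ^ r) (hK : 6 * (A.c * k) ≤ S.K) : Fooled p k G H := by
  have hX' : ∀ (K : Type) [Field K], (p : K) ≠ 0 → (Fintype.card X : K) ≠ 0 := by
    intro K _ hp
    rw [hX, Nat.cast_pow]
    exact pow_ne_zero _ hp
  have h1 : A.c * 1 ≤ A.c * k := Nat.mul_le_mul_left _ hk
  refine ⟨(play A k (by rw [mul_add]; omega)).wlEquivalent,
    A.imEquiv hA hX' (by omega) (by omega), fun K _ hp => ?_, ?_⟩
  · refine A.not_pcRefutes K (hX' K hp) ?_
    rw [mul_add]
    omega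
  · refine A.not_posRefutes ?_
    rw [mul_add]
    omega

variable {p : ℕ} [Fact p.Prime]

theorem isComparability_gr {n s : ℕ} (β : Fin (2 * n) → ZMod p) :
    IsComparability (p ^ 2 + p) (gr (s := s) β) := by
  have e : ((ZMod p × ZMod p) ⊕ ZMod p) ≃ Fin (p ^ 2 + p) :=
    Fintype.equivFinOfCardEq (by
      rw [Fintype.card_sum, Fintype.card_prod, ZMod.card]
      ring)
  refine ⟨rel β, fun w => e (chain β w.1.1), rel_irrefl β, fun u v x => rel_trans β,
    fun u v => Iff.rfl, fun u v h1 h2 => ?_⟩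
  have h3 := e.injective h1
  by_cases h4 : u.1.1 = v.1.1
  · have h5 : (gr β).Adj u v := gr_adj.2 (Or.inr ⟨h4, h2⟩)
    exact h5
  · rcases chain_lt β h4 h3 with h5 | h5
    · exact Or.inl (Or.inl h5)
    · exact Or.inr (Or.inl h5)

theorem card_Wx {n s : ℕ} : Fintype.card (Wx n s p) ≤
    ((2 * n + 1) * p + (2 * n * (p * p) + (n + s) * p)) * (6 + 3 * p) := by
  refine (Fintype.card_subtype_le _).trans ?_
  rw [Fintype.card_prod, Vx.card, Fintype.card_fin]

/-- The theorem for a prime number. -/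
theorem exists_pair (p : ℕ) (hp : p.Prime) : ∃ C : ℕ, ∀ k : ℕ, 1 ≤ k →
    ∃ (V : Type) (_ : Fintype V) (G H : SimpleGraph V), Fintype.card V ≤ C * k ^ 2 ∧
      IsComparability (p ^ 2 + p) G ∧ IsComparability (p ^ 2 + p) H ∧ IsEmpty (G ≃g H) ∧
      Fooled p k G H ∧ Fooled p k Gᶜ Hᶜ := by
  haveI : Fact p.Prime := ⟨hp⟩
  refine ⟨19 ^ 2 * ((3 * p + (2 * (p * p) + 2 * p)) * (6 + 3 * p)), fun k hk => ?_⟩
  obtain ⟨s, hs⟩ : ∃ s, s = 18 * k + 1 := ⟨_, rfl⟩
  have hs0 : 0 < s := by omega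
  have hss : s ≤ s * s := Nat.le_mul_self s
  have hss0 : 0 < s * s := Nat.mul_pos hs0 hs0
  let z : Fin (2 * (s * s)) := ⟨0, by omega⟩
  let β : Fin (2 * (s * s)) → ZMod p := 0
  let β' : Fin (2 * (s * s)) → ZMod p := Pi.single z 1
  refine ⟨Wx (s * s) s p, inferInstance, gr β, gr β', ?_, isComparability_gr β,
    isComparability_gr β', ⟨fun f => ?_⟩, ?_, ?_⟩
  · have h1 : s ≤ 19 * k := by omega
    have h2 : s * s ≤ 19 ^ 2 * k ^ 2 := by
      calc s * s ≤ (19 * k) * (19 * k) := Nat.mul_le_mul h1 h1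
        _ = 19 ^ 2 * k ^ 2 := by ring
    refine card_Wx.trans ?_
    have h3 : (2 * (s * s) + 1) * p + (2 * (s * s) * (p * p) + (s * s + s) * p) ≤
        (s * s) * (3 * p + (2 * (p * p) + 2 * p)) := by
      have e1 : (2 * (s * s) + 1) * p ≤ (3 * (s * s)) * p :=
        Nat.mul_le_mul_right _ (by omega)
      have e2 : (s * s + s) * p ≤ (2 * (s * s)) * p := Nat.mul_le_mul_right _ (by omega)
      calc (2 * (s * s) + 1) * p + (2 * (s * s) * (p * p) + (s * s + s) * p) ≤
          (3 * (s * s)) * p + (2 * (s * s) * (p * p) + (2 * (s * s)) * p) := by omega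
        _ = (s * s) * (3 * p + (2 * (p * p) + 2 * p)) := by ring
    calc ((2 * (s * s) + 1) * p + (2 * (s * s) * (p * p) + (s * s + s) * p)) * (6 + 3 * p) ≤
        ((s * s) * (3 * p + (2 * (p * p) + 2 * p))) * (6 + 3 * p) := Nat.mul_le_mul_right _ h3
      _ = (s * s) * ((3 * p + (2 * (p * p) + 2 * p)) * (6 + 3 * p)) := by ring
      _ ≤ (19 ^ 2 * k ^ 2) * ((3 * p + (2 * (p * p) + 2 * p)) * (6 + 3 * p)) :=
        Nat.mul_le_mul_right _ h2
      _ = 19 ^ 2 * ((3 * p + (2 * (p * p) + 2 * p)) * (6 + 3 * p)) * k ^ 2 := by ring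
  · have h1 := sum_eq_of_iso hss0 hss f
    simp only [β, β', Pi.zero_apply, Finset.sum_const_zero] at h1
    rw [Finset.sum_pi_single'] at h1
    simp at h1
  · refine fooled_of_act (actG hs0 β β') (actG_torsor hs0 β β') hk
      (r := Fintype.card (Ed (s * s) s)) ?_ ?_
    · rw [Fintype.card_fun, ZMod.card]
    · show 6 * (3 * k) ≤ s - 1
      omega
  · refine fooled_of_act (actC hs0 β β') (actC_torsor hs0 β β') hk
      (r := Fintype.card (Ed (s * s) s)) ?_ ?_
    · rw [Fintype.card_fun, ZMod.card]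
    · show 6 * (3 * k) ≤ s - 1
      omega

end Pool.Agent.Helper55.BW
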