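import Pool.Agent.Helper55.BW.Verts

/-!
# Isomorphisms of the comparability graphs are flows
-/

set_option autoImplicit false
set_option linter.unusedSectionVars false

namespace Pool.Agent.Helper55.BW

open Finset

variable {n s p : ℕ} [Fact p.Prime]

open Vx

theorem one_ne : (1 : ZMod p) ≠ 0 := one_ne_zero

theorem add_one_ne (c : ZMod p) : c + 1 ≠ c := by
  intro h
  exact one_ne (add_eq_left.1 h)

/-- Comparability of the elements. -/
def adj (β : Fin (2 * n) → ZMod p) (x y : Vx n s p) : Prop := lt β x y ∨ lt β y x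

theorem adj_comm (β : Fin (2 * n) → ZMod p) (x y : Vx n s p) : adj β x y ↔ adj β y x := or_comm

theorem adj_irrefl (β : Fin (2 * n) → ZMod p) (x : Vx n s p) : ¬ adj β x x := by
  rintro (h | h) <;> exact lt_irrefl β x h

theorem adj_ne {β : Fin (2 * n) → ZMod p} {x y : Vx n s p} (h : adj β x y) : x ≠ y := by
  rintro rfl
  exact adj_irrefl β x h

theorem adj_TT {β : Fin (2 * n) → ZMod p} {τ τ' : Fin (2 * n + 1)} {c c' : ZMod p} :
    adj β (T τ c : Vx n s p) (T τ' c') ↔ τ.1 ≠ τ'.1 := by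
  simp only [adj, lt]
  omega

theorem adj_NN {β : Fin (2 * n) → ZMod p} {v v' : Fin (2 * n)} {a q a' q' : ZMod p} :
    adj β (N v a q : Vx n s p) (N v' a' q') ↔ v.1 ≠ v'.1 := by
  simp only [adj, lt]
  omega

theorem adj_DD {β : Fin (2 * n) → ZMod p} {i j : Fin (n + s)} {c c' : ZMod p} :
    adj β (D i c : Vx n s p) (D j c') ↔ i.1 ≠ j.1 := by
  simp only [adj, lt]
  omega

theorem adj_TD {β : Fin (2 * n) → ZMod p} {τ : Fin (2 * n + 1)} {i : Fin (n + s)}
    {c c' : ZMod p} :
    adj β (T τ c : Vx n s p) (D i c') ↔ (2 * s + τ.1 ≤ 2 * i.1 ∨ 2 * i.1 + 1 < τ.1) := by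
  simp only [adj, lt]

theorem adj_NT {β : Fin (2 * n) → ZMod p} {v : Fin (2 * n)} {τ : Fin (2 * n + 1)}
    {a q c : ZMod p} :
    adj β (N v a q : Vx n s p) (T τ c) ↔ (v.1 + 1 < τ.1 ∨ τ.1 < v.1) ∨
      (τ.1 = v.1 ∧ a = c) ∨ (v.1 + 1 = τ.1 ∧ out β v a q = c) := by
  simp only [adj, lt]
  tauto

theorem adj_ND {β : Fin (2 * n) → ZMod p} {v : Fin (2 * n)} {i : Fin (n + s)}
    {a q c : ZMod p} :
    adj β (N v a q : Vx n s p) (D i c) ↔ (2 * s + v.1 < 2 * i.1 ∨ 2 * i.1 + 1 < v.1) ∨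
      ((2 * s + v.1 = 2 * i.1 ∨ 2 * i.1 + 1 = v.1) ∧ q = c) := by
  simp only [adj, lt]
  tauto

/-- A third element that distinguishes `x` and `y`. -/
def Wit (β : Fin (2 * n) → ZMod p) (x y : Vx n s p) : Prop :=
  ∃ z, z ≠ x ∧ z ≠ y ∧ ¬ (adj β z x ↔ adj β z y)

theorem Wit.symm {β : Fin (2 * n) → ZMod p} {x y : Vx n s p} (h : Wit β x y) : Wit β y x := by
  obtain ⟨z, h1, h2, h3⟩ := h
  exact ⟨z, h2, h1, fun h => h3 h.symm⟩

/-- The case in which `z` is comparable to `y` but not to `x`. -/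
theorem Wit.mk1 {β : Fin (2 * n) → ZMod p} {x y : Vx n s p} (z : Vx n s p) (h1 : z ≠ x)
    (h2 : ¬ adj β z x) (h3 : adj β z y) : Wit β x y :=
  ⟨z, h1, adj_ne h3, fun h => h2 (h.2 h3)⟩

theorem wit_NT {β : Fin (2 * n) → ZMod p} {v : Fin (2 * n)} {τ : Fin (2 * n + 1)}
    {a q c : ZMod p} (h : adj β (N v a q : Vx n s p) (T τ c)) :
    Wit β (N v a q : Vx n s p) (T τ c) := by
  rw [adj_NT] at h
  rcases h with h | ⟨h1, h2⟩ | ⟨h1, h2⟩
  · refine Wit.symm (Wit.mk1 (T τ (c + 1)) ?_ ?_ ?_)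
    · intro h1
      simp only [T.injEq, true_and] at h1
      exact add_one_ne c h1
    · rw [adj_TT]
      simp
    · rw [adj_comm, adj_NT]
      exact Or.inl h
  · refine Wit.mk1 (N v a (q + 1)) ?_ ?_ ?_
    · intro h1
      simp only [N.injEq, true_and] at h1
      exact add_one_ne q h1
    · rw [adj_NN]
      simp
    · rw [adj_NT]
      exact Or.inr (Or.inl ⟨h1, h2⟩)
  · refine Wit.mk1 (N v (a - sgn (ZMod p) v.1) (q + 1)) ?_ ?_ ?_
    · intro h1
      simp only [N.injEq, true_and] at h1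
      exact add_one_ne q h1.2
    · rw [adj_NN]
      simp
    · rw [adj_NT]
      refine Or.inr (Or.inr ⟨h1, ?_⟩)
      rw [← h2]
      unfold out
      ring

theorem wit_ND {β : Fin (2 * n) → ZMod p} {v : Fin (2 * n)} {i : Fin (n + s)}
    {a q c : ZMod p} (h : adj β (N v a q : Vx n s p) (D i c)) :
    Wit β (N v a q : Vx n s p) (D i c) := by
  rw [adj_ND] at h
  rcases h with h | ⟨h1, h2⟩
  · refine Wit.symm (Wit.mk1 (D i (c + 1)) ?_ ?_ ?_)
    · intro h1
      simp only [D.injEq, true_and] at h1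
      exact add_one_ne c h1
    · rw [adj_DD]
      simp
    · rw [adj_comm, adj_ND]
      exact Or.inl h
  · refine Wit.mk1 (N v (a + 1) q) ?_ ?_ ?_
    · intro h1
      simp only [N.injEq, true_and, and_true] at h1
      exact add_one_ne a h1
    · rw [adj_NN]
      simp
    · rw [adj_ND]
      exact Or.inr ⟨h1, h2⟩

theorem wit_TD {β : Fin (2 * n) → ZMod p} {τ : Fin (2 * n + 1)} {i : Fin (n + s)}
    {c c' : ZMod p} (h : adj β (T τ c : Vx n s p) (D i c')) :
    Wit β (T τ c : Vx n s p) (D i c') := by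
  refine Wit.mk1 (T τ (c + 1)) ?_ ?_ ?_
  · intro h1
    simp only [T.injEq, true_and] at h1
    exact add_one_ne c h1
  · rw [adj_TT]
    simp
  · rw [adj_TD] at h ⊢
    exact h

theorem wit {β : Fin (2 * n) → ZMod p} {x y : Vx n s p} (h : adj β x y) : Wit β x y := by
  cases x with
  | T τ c =>
    cases y with
    | T τ' c' =>
      refine Wit.mk1 (T τ (c + 1)) ?_ ?_ ?_
      · intro h1
        simp only [T.injEq, true_and] at h1
        exact add_one_ne c h1
      · rw [adj_TT]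
        simp
      · rw [adj_TT] at h ⊢
        exact h
    | N v a q => exact (wit_NT ((adj_comm _ _ _).1 h)).symm
    | D i c' => exact wit_TD h
  | N v a q =>
    cases y with
    | T τ c => exact wit_NT h
    | N v' a' q' =>
      refine Wit.mk1 (N v (a + 1) q) ?_ ?_ ?_
      · intro h1
        simp only [N.injEq, true_and, and_true] at h1
        exact add_one_ne a h1
      · rw [adj_NN]
        simp
      · rw [adj_NN] at h ⊢
        exact h
    | D i c => exact wit_ND h
  | D i c =>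
    cases y with
    | T τ c' => exact (wit_TD ((adj_comm _ _ _).1 h)).symm
    | N v a q => exact (wit_ND ((adj_comm _ _ _).1 h)).symm
    | D j c' =>
      refine Wit.mk1 (D i (c + 1)) ?_ ?_ ?_
      · intro h1
        simp only [D.injEq, true_and] at h1
        exact add_one_ne c h1
      · rw [adj_DD]
        simp
      · rw [adj_DD] at h ⊢
        exact h

theorem gr_adj {β : Fin (2 * n) → ZMod p} {u w : Wx n s p} :
    (gr β).Adj u w ↔ adj β u.1.1 w.1.1 ∨ (u.1.1 = w.1.1 ∧ u ≠ w) := by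
  constructor
  · rintro ((h | ⟨h, h'⟩) | (h | ⟨h, h'⟩))
    · exact Or.inl (Or.inl h)
    · refine Or.inr ⟨h, ?_⟩
      rintro rfl
      exact absurd h' (lt_self_iff_false _).1
    · exact Or.inl (Or.inr h)
    · refine Or.inr ⟨h.symm, ?_⟩
      rintro rfl
      exact absurd h' (lt_self_iff_false _).1
  · rintro (h | ⟨h, h'⟩)
    · rcases h with h | h
      · exact Or.inl (Or.inl h)
      · exact Or.inr (Or.inl h)
    · have h1 : u.1.2 ≠ w.1.2 := by
        intro h2
        exact h' (Subtype.ext (Prod.ext h h2))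
      rcases lt_or_gt_of_ne h1 with h2 | h2
      · exact Or.inl (Or.inr ⟨h, h2⟩)
      · exact Or.inr (Or.inr ⟨h.symm, h2⟩)

/-- Two vertices have the same neighbours, and are adjacent. -/
def Tw {V : Type} (G : SimpleGraph V) (u w : V) : Prop :=
  (∀ z, z ≠ u → z ≠ w → (G.Adj z u ↔ G.Adj z w)) ∧ (u ≠ w → G.Adj u w)

theorem Tw.map {V W : Type} {G : SimpleGraph V} {H : SimpleGraph W} (f : G ≃g H) {u w : V}
    (h : Tw G u w) : Tw H (f u) (f w) := by
  refine ⟨fun z h1 h2 => ?_, fun h1 => ?_⟩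
  · have h3 := h.1 (f.symm z) (fun h4 => h1 (by rw [← h4, RelIso.apply_symm_apply]))
      (fun h4 => h2 (by rw [← h4, RelIso.apply_symm_apply]))
    rw [← f.map_adj_iff, ← f.map_adj_iff, RelIso.apply_symm_apply] at h3
    exact h3
  · exact f.map_adj_iff.2 (h.2 fun h2 => h1 (by rw [h2]))

theorem tw_iff_map {V W : Type} {G : SimpleGraph V} {H : SimpleGraph W} (f : G ≃g H) {u w : V} :
    Tw G u w ↔ Tw H (f u) (f w) := by
  refine ⟨Tw.map f, fun h => ?_⟩
  have h1 := Tw.map f.symm h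
  rwa [RelIso.symm_apply_apply, RelIso.symm_apply_apply] at h1

/-- The first vertex of the chain of an element. -/
def rep (x : Vx n s p) : Wx n s p :=
  ⟨(x, ⟨0, by omega⟩), size_pos x⟩

theorem tw_iff {β : Fin (2 * n) → ZMod p} {u w : Wx n s p} :
    Tw (gr β) u w ↔ u.1.1 = w.1.1 := by
  constructor
  · rintro ⟨h1, h2⟩
    by_contra hne
    have h3 := h2 fun h => hne (by rw [h])
    rw [gr_adj] at h3
    have h4 : adj β u.1.1 w.1.1 := by
      rcases h3 with h3 | h3
      · exact h3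
      · exact absurd h3.1 hne
    obtain ⟨z, z1, z2, z3⟩ := wit h4
    apply z3
    have h5 := h1 (rep z) (fun h => z1 (by rw [← h]; rfl)) (fun h => z2 (by rw [← h]; rfl))
    rw [gr_adj, gr_adj] at h5
    have e1 : ((rep z : Wx n s p).1.1 = u.1.1) = False := by
      rw [eq_iff_iff, iff_false]
      exact z1
    have e2 : ((rep z : Wx n s p).1.1 = w.1.1) = False := by
      rw [eq_iff_iff, iff_false]
      exact z2
    rw [e1, e2, false_and, or_false, false_and, or_false] at h5
    exact h5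
  · intro h
    refine ⟨fun z h1 h2 => ?_, fun h1 => gr_adj.2 (Or.inr ⟨h, h1⟩)⟩
    rw [gr_adj, gr_adj, h]
    simp only [h1, h2, ne_eq, not_false_eq_true, and_true]

theorem card_fibre (x : Vx n s p) : Nat.card {w : Wx n s p // w.1.1 = x} = size x := by
  have e : {w : Wx n s p // w.1.1 = x} ≃ Fin (size x) :=
    { toFun := fun w => ⟨w.1.1.2.1, by have := w.1.2; rw [w.2] at this; exact this⟩
      invFun := fun i => ⟨⟨(x, ⟨i.1, lt_of_lt_of_le i.2 (size_le x)⟩), i.2⟩, rfl⟩
      left_inv := by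
        rintro ⟨⟨⟨y, i⟩, hi⟩, rfl⟩
        rfl
      right_inv := fun i => rfl }
  rw [Nat.card_congr e, Nat.card_eq_fintype_card, Fintype.card_fin]

/-- Isomorphisms of the comparability graphs give bijections of the elements. -/
theorem exists_phi {β β' : Fin (2 * n) → ZMod p} (f : gr (s := s) β ≃g gr (s := s) β') :
    ∃ φ : Vx n s p ≃ Vx n s p, (∀ x, size (φ x) = size x) ∧
      ∀ x y, adj β x y ↔ adj β' (φ x) (φ y) := by
  have key : ∀ u w : Wx n s p, u.1.1 = w.1.1 ↔ (f u).1.1 = (f w).1.1 := by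
    intro u w
    rw [← tw_iff (β := β), ← tw_iff (β := β')]
    exact tw_iff_map f
  have key' : ∀ u w : Wx n s p, u.1.1 = w.1.1 ↔ (f.symm u).1.1 = (f.symm w).1.1 := by
    intro u w
    rw [← tw_iff (β := β'), ← tw_iff (β := β)]
    exact tw_iff_map f.symm
  let φ : Vx n s p ≃ Vx n s p :=
    { toFun := fun x => (f (rep x)).1.1
      invFun := fun y => (f.symm (rep y)).1.1
      left_inv := by
        intro x
        show (f.symm (rep (f (rep x)).1.1)).1.1 = x
        have h := (key' (rep (f (rep x)).1.1) (f (rep x))).1 rfl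
        rw [h, RelIso.symm_apply_apply]
        rfl
      right_inv := by
        intro y
        show (f (rep (f.symm (rep y)).1.1)).1.1 = y
        have h := (key (rep (f.symm (rep y)).1.1) (f.symm (rep y))).1 rfl
        rw [h, RelIso.apply_symm_apply]
        rfl }
  have hφ : ∀ u : Wx n s p, (f u).1.1 = φ u.1.1 := by
    intro u
    exact (key u (rep u.1.1)).1 rfl
  refine ⟨φ, fun x => ?_, fun x y => ?_⟩
  · rw [← card_fibre, ← card_fibre]
    refine (Nat.card_congr (f.toEquiv.subtypeEquiv fun w => ?_)).symm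
    show w.1.1 = x ↔ (f w).1.1 = φ x
    rw [hφ, φ.injective.eq_iff]
  · by_cases hxy : x = y
    · subst hxy
      exact iff_of_false (adj_irrefl β x) (adj_irrefl β' _)
    · have h1 : (gr β).Adj (rep x) (rep y) ↔ (gr β').Adj (f (rep x)) (f (rep y)) :=
        f.map_adj_iff.symm
      rw [gr_adj, gr_adj, hφ, hφ, φ.injective.eq_iff] at h1
      have e : ((rep x : Wx n s p).1.1 = (rep y : Wx n s p).1.1) = False := by
        rw [eq_iff_iff, iff_false]
        exact hxy
      rw [e, false_and, or_false, false_and, or_false] at h1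
      exact h1

theorem val_lt' (c : ZMod p) : c.val < p := ZMod.val_lt c

theorem size_N_eq {v : Fin (2 * n)} {a q : ZMod p} {y : Vx n s p}
    (h : size y = size (N v a q : Vx n s p)) : ∃ v' a' q', y = N v' a' q' ∧ v'.1 % 2 = v.1 % 2 := by
  cases y with
  | T τ c => simp only [size] at h; split_ifs at h <;> omega
  | N v' a' q' =>
    refine ⟨v', a', q', rfl, ?_⟩
    simp only [size] at h
    split_ifs at h <;> omega
  | D i c => simp only [size] at h; split_ifs at h <;> omega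

theorem size_T0_eq {τ : Fin (2 * n + 1)} (hτ : τ.1 = 0) {c : ZMod p} {y : Vx n s p}
    (h : size y = size (T τ c : Vx n s p)) : y = T τ c := by
  have hc := val_lt' c
  cases y with
  | T τ' c' =>
    have hc' := val_lt' c'
    simp only [size, hτ, if_true] at h
    split_ifs at h with h1 h2 h3
    · have h4 : c' = c := ZMod.val_injective p (by omega)
      rw [h4, Fin.ext (h1.trans hτ.symm)]
    all_goals omega
  | N v' a' q' =>
    simp only [size, hτ, if_true] at h
    split_ifs at h <;> omega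
  | D i c' =>
    simp only [size, hτ, if_true] at h
    split_ifs at h <;> omega

theorem size_T2_eq {τ : Fin (2 * n + 1)} (hn : 0 < n) (hτ : τ.1 = 2 * n) {c : ZMod p}
    {y : Vx n s p} (h : size y = size (T τ c : Vx n s p)) : y = T τ c := by
  have hc := val_lt' c
  cases y with
  | T τ' c' =>
    have hc' := val_lt' c'
    simp only [size, hτ, if_true] at h
    rw [if_neg (show ¬ 2 * n = 0 by omega)] at h
    split_ifs at h with h1 h2 h3
    · omega
    · have h4 : c' = c := ZMod.val_injective p (by omega)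
      rw [h4, Fin.ext (h2.trans hτ.symm)]
    all_goals omega
  | N v' a' q' =>
    simp only [size, hτ, if_true] at h
    rw [if_neg (show ¬ 2 * n = 0 by omega)] at h
    split_ifs at h <;> omega
  | D i c' =>
    simp only [size, hτ, if_true] at h
    rw [if_neg (show ¬ 2 * n = 0 by omega)] at h
    split_ifs at h <;> omega

theorem size_T_eq {τ : Fin (2 * n + 1)} (h0 : 0 < τ.1) (h1 : τ.1 < 2 * n) {c : ZMod p}
    {y : Vx n s p} (h : size y = size (T τ c : Vx n s p)) :
    ∃ τ' c', y = T τ' c' ∧ τ'.1 % 2 = τ.1 % 2 := by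
  cases y with
  | T τ' c' =>
    refine ⟨τ', c', rfl, ?_⟩
    simp only [size] at h
    rw [if_neg (show ¬ τ.1 = 0 by omega), if_neg (show ¬ τ.1 = 2 * n by omega)] at h
    split_ifs at h <;> omega
  | N v' a' q' =>
    simp only [size] at h
    rw [if_neg (show ¬ τ.1 = 0 by omega), if_neg (show ¬ τ.1 = 2 * n by omega)] at h
    split_ifs at h <;> omega
  | D i c' =>
    simp only [size] at h
    rw [if_neg (show ¬ τ.1 = 0 by omega), if_neg (show ¬ τ.1 = 2 * n by omega)] at h
    split_ifs at h <;> omega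

theorem size_D_eq {i : Fin (n + s)} {c : ZMod p} {y : Vx n s p}
    (h : size y = size (D i c : Vx n s p)) :
    ∃ i' c', y = D i' c' ∧ (¬ (s ≤ i.1 ∧ i.1 < n) → c' = c) := by
  have hc := val_lt' c
  cases y with
  | T τ' c' =>
    have hc' := val_lt' c'
    simp only [size] at h
    split_ifs at h <;> omega
  | N v' a' q' =>
    simp only [size] at h
    split_ifs at h <;> omega
  | D i' c' =>
    have hc' := val_lt' c'
    refine ⟨i', c', rfl, fun h1 => ?_⟩
    simp only [size] at h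
    rw [if_neg h1] at h
    split_ifs at h with h2
    · omega
    · exact ZMod.val_injective p (by omega)

section

variable {β β' : Fin (2 * n) → ZMod p} {φ : Vx n s p ≃ Vx n s p}
  (hsz : ∀ x, size (φ x) = size x) (hadj : ∀ x y, adj β x y ↔ adj β' (φ x) (φ y))

include hsz hadj

theorem step_N (v : Fin (2 * n)) (τ : Fin (2 * n + 1)) (hτ : τ.1 = v.1)
    (hT : ∀ c, ∃ c', φ (T τ c) = T τ c') (a q : ZMod p) :
    ∃ a' q', φ (N v a q) = N v a' q' := by
  obtain ⟨v', a', q', h1, h2⟩ := size_N_eq (hsz (N v a q))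
  obtain ⟨c', h3⟩ := hT (a + 1)
  have h4 : ¬ adj β (N v a q : Vx n s p) (T τ (a + 1)) := by
    rw [adj_NT]
    rintro (h | ⟨-, h⟩ | ⟨h, -⟩)
    · omega
    · exact add_one_ne a h.symm
    · omega
  rw [hadj, h1, h3, adj_NT] at h4
  have h5 : v' = v := by
    apply Fin.ext
    by_contra h6
    exact h4 (Or.inl (by omega))
  subst h5
  exact ⟨a', q', h1⟩

theorem step_T (hn : 0 < n) (v : Fin (2 * n)) (τ : Fin (2 * n + 1)) (hτ : v.1 + 1 = τ.1)
    (hN : ∀ a q, ∃ a' q', φ (N v a q) = N v a' q') (c : ZMod p) :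
    ∃ c', φ (T τ c) = T τ c' := by
  by_cases h0 : τ.1 = 2 * n
  · exact ⟨c, size_T2_eq hn h0 (hsz _)⟩
  obtain ⟨τ', c', h1, h2⟩ := size_T_eq (by omega) (by omega) (hsz (T τ c))
  obtain ⟨a', q', h3⟩ := hN (c + 1 - β v) 0
  have h4 : ¬ adj β (N v (c + 1 - β v) 0 : Vx n s p) (T τ c) := by
    rw [adj_NT]
    rintro (h | ⟨h, -⟩ | ⟨-, h⟩)
    · omega
    · omega
    · unfold out at h
      apply add_one_ne c
      rw [← h]
      ring_nf at h ⊢
      simpa using h
  rw [hadj, h1, h3, adj_NT] at h4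
  have h5 : τ' = τ := by
    apply Fin.ext
    by_contra h6
    exact h4 (Or.inl (by omega))
  subst h5
  exact ⟨c', h1⟩

theorem index_T (hn : 0 < n) : ∀ (t : ℕ) (ht : t < 2 * n + 1) (c : ZMod p),
    ∃ c', φ (T ⟨t, ht⟩ c) = T ⟨t, ht⟩ c' := by
  intro t
  induction t with
  | zero =>
    intro ht c
    exact ⟨c, size_T0_eq rfl (hsz _)⟩
  | succ t ih =>
    intro ht c
    exact step_T hsz hadj hn ⟨t, by omega⟩ ⟨t + 1, ht⟩ rfl
      (step_N hsz hadj ⟨t, by omega⟩ ⟨t, by omega⟩ rfl (ih (by omega))) c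

theorem index_N (hn : 0 < n) (v : Fin (2 * n)) (a q : ZMod p) :
    ∃ a' q', φ (N v a q) = N v a' q' :=
  step_N hsz hadj v ⟨v.1, by omega⟩ rfl (index_T hsz hadj hn v.1 (by omega)) a q

theorem index_D (hn : 0 < n) (hsn : s ≤ n) (i : Fin (n + s)) (c : ZMod p) :
    ∃ c', φ (D i c) = D i c' ∧ (¬ (s ≤ i.1 ∧ i.1 < n) → c' = c) := by
  obtain ⟨i', c', h1, h2⟩ := size_D_eq (hsz (D i c))
  -- an end of `D i`
  obtain ⟨v, hv⟩ : ∃ v : Fin (2 * n), (2 * s + v.1 = 2 * i.1 ∨ 2 * i.1 + 1 = v.1) := by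
    by_cases hi : i.1 < n
    · exact ⟨⟨2 * i.1 + 1, by omega⟩, Or.inr rfl⟩
    · by_cases hi' : s ≤ i.1
      · exact ⟨⟨2 * (i.1 - s), by have := i.2; omega⟩, Or.inl (by
          show 2 * s + 2 * (i.1 - s) = 2 * i.1
          omega)⟩
      · exact ⟨⟨0, by omega⟩, by
          exfalso
          omega⟩
  obtain ⟨a1, q1, e1⟩ := index_N hsz hadj hn v 0 c
  obtain ⟨a2, q2, e2⟩ := index_N hsz hadj hn v 0 (c + 1)
  have g1 : adj β (N v 0 c : Vx n s p) (D i c) := by
    rw [adj_ND]
    exact Or.inr ⟨hv, rfl⟩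
  have g2 : ¬ adj β (N v 0 (c + 1) : Vx n s p) (D i c) := by
    rw [adj_ND]
    rintro (h | ⟨-, h⟩)
    · omega
    · exact add_one_ne c h
  rw [hadj, e1, h1, adj_ND] at g1
  rw [hadj, e2, h1, adj_ND] at g2
  have h3 : ¬ (2 * s + v.1 < 2 * i'.1 ∨ 2 * i'.1 + 1 < v.1) := fun h => g2 (Or.inl h)
  have h4 : 2 * s + v.1 = 2 * i'.1 ∨ 2 * i'.1 + 1 = v.1 := by
    rcases g1 with h | h
    · exact absurd h h3
    · exact h.1
  have h5 : i' = i := by
    apply Fin.ext
    omega
  subst h5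
  exact ⟨c', h1, h2⟩

end

end Pool.Agent.Helper55.BW
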