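import Pool.Agent.Helper55.BW.Rigid

/-!
# The invariant
-/

set_option autoImplicit false
set_option linter.unusedSectionVars false

namespace Pool.Agent.Helper55.BW

open Finset

variable {n s p : ℕ} [Fact p.Prime]

open Vx

theorem side_end (v : ℕ) : 2 * s + v = 2 * sideN s v ∨ 2 * sideN s v + 1 = v := by
  unfold sideN
  split_ifs <;> omega

section

variable {β β' : Fin (2 * n) → ZMod p} {φ : Vx n s p ≃ Vx n s p}
  (hsz : ∀ x, size (φ x) = size x) (hadj : ∀ x y, adj β x y ↔ adj β' (φ x) (φ y))

include hsz hadj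

theorem labels (hn : 0 < n) (hsn : s ≤ n) : ∃ γ : ℕ → ZMod p,
    (∀ i, ¬ (s ≤ i ∧ i < n) → γ i = 0) ∧ ∀ (t : ℕ) (ht : t < 2 * n + 1) (c : ZMod p),
      φ (T ⟨t, ht⟩ c) = T ⟨t, ht⟩ (c + ∑ v ∈ range t, (sgn (ZMod p) v * γ (sideN s v) +
        ext (fun v => β' v - β v) v)) := by
  choose g hg hg' using index_D hsz hadj hn hsn
  refine ⟨fun i => if h : i < n + s then g ⟨i, h⟩ 0 else 0, fun i hi => ?_, ?_⟩
  · dsimp only
    split_ifs with h
    · exact hg' ⟨i, h⟩ 0 hi
    · rfl
  · intro t
    induction t with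
    | zero =>
      intro ht c
      rw [range_zero, sum_empty, add_zero]
      exact size_T0_eq rfl (hsz _)
    | succ t ih =>
      intro ht c
      have ht' : t < 2 * n := by omega
      obtain ⟨v, hv⟩ : ∃ v : Fin (2 * n), v = ⟨t, ht'⟩ := ⟨_, rfl⟩
      have hv1 : v.1 = t := by rw [hv]
      have hside : sideN s t < n + s := by
        unfold sideN
        split_ifs <;> omega
      obtain ⟨i, hi⟩ : ∃ i : Fin (n + s), i = ⟨sideN s t, hside⟩ := ⟨_, rfl⟩
      have hi1 : i.1 = sideN s t := by rw [hi]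
      obtain ⟨S, hS⟩ : ∃ S, S = ∑ v ∈ range t, (sgn (ZMod p) v *
        (fun i => if h : i < n + s then g ⟨i, h⟩ 0 else 0) (sideN s v) +
        ext (fun v => β' v - β v) v) := ⟨_, rfl⟩
      have ih' := ih (by omega) (c - β v)
      rw [← hS] at ih'
      obtain ⟨a', q', h1⟩ := index_N hsz hadj hn v (c - β v) 0
      obtain ⟨c', h2⟩ := index_T hsz hadj hn (t + 1) ht c
      -- the three relations
      have r1 : adj β (N v (c - β v) 0 : Vx n s p) (T ⟨t, by omega⟩ (c - β v)) := by
        rw [adj_NT]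
        exact Or.inr (Or.inl ⟨hv1.symm, rfl⟩)
      have r2 : adj β (N v (c - β v) 0 : Vx n s p) (D i 0) := by
        rw [adj_ND]
        refine Or.inr ⟨?_, rfl⟩
        rw [hi1, hv1]
        exact side_end t
      have r3 : adj β (N v (c - β v) 0 : Vx n s p) (T ⟨t + 1, ht⟩ c) := by
        rw [adj_NT]
        refine Or.inr (Or.inr ⟨by rw [hv1], ?_⟩)
        unfold out
        ring
      rw [hadj, h1, ih', adj_NT] at r1
      rw [hadj, h1, hg, adj_ND] at r2
      rw [hadj, h1, h2, adj_NT] at r3
      have e1 : a' = c - β v + S := by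
        rcases r1 with h | h | h
        · have h' : v.1 + 1 < t ∨ t < v.1 := h
          omega
        · exact h.2
        · have h' : v.1 + 1 = t := h.1
          omega
      have e2 : q' = g i 0 := by
        rcases r2 with h | h
        · have h' := side_end (s := s) t
          omega
        · exact h.2
      have e3 : out β' v a' q' = c' := by
        rcases r3 with h | h | h
        · have h' : v.1 + 1 < t + 1 ∨ t + 1 < v.1 := h
          omega
        · have h' : t + 1 = v.1 := h.1
          omega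
        · exact h.2
      rw [h2, sum_range_succ, ← hS]
      congr 1
      rw [← e3, e1, e2]
      unfold out
      have e4 : (fun i => if h : i < n + s then g ⟨i, h⟩ 0 else 0) (sideN s t) = g i 0 := by
        dsimp only
        rw [dif_pos hside, hi]
      have e5 : ext (fun v => β' v - β v) t = β' v - β v := by
        unfold ext
        rw [dif_pos ht', hv]
      rw [e4, e5, hv1]
      ring

end

theorem sum_pairs {A : Type} [AddCommMonoid A] (f : ℕ → A) (m : ℕ) :
    ∑ v ∈ range (2 * m), f v = ∑ j ∈ range m, (f (2 * j) + f (2 * j + 1)) := by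
  induction m with
  | zero => rfl
  | succ m ih =>
    rw [show 2 * (m + 1) = 2 * m + 1 + 1 by ring, sum_range_succ, sum_range_succ, ih,
      sum_range_succ, add_assoc]

/-- The contributions of the edges `D i` cancel. -/
theorem side_sum (hsn : s ≤ n) (γ : ℕ → ZMod p) (hγ : ∀ i, ¬ (s ≤ i ∧ i < n) → γ i = 0) :
    ∑ v ∈ range (2 * n), sgn (ZMod p) v * γ (sideN s v) = 0 := by
  rw [sum_pairs]
  have h1 : ∀ j, sgn (ZMod p) (2 * j) * γ (sideN s (2 * j)) +
      sgn (ZMod p) (2 * j + 1) * γ (sideN s (2 * j + 1)) = γ (s + j) - γ j := by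
    intro j
    have a1 : sideN s (2 * j) = s + j := by
      unfold sideN
      rw [if_pos (by omega)]
      omega
    have a2 : sideN s (2 * j + 1) = j := by
      unfold sideN
      rw [if_neg (by omega)]
      omega
    have a3 : sgn (ZMod p) (2 * j) = 1 := by
      unfold sgn
      rw [if_pos (by omega)]
    have a4 : sgn (ZMod p) (2 * j + 1) = -1 := by
      unfold sgn
      rw [if_neg (by omega)]
    rw [a1, a2, a3, a4]
    ring
  rw [sum_congr rfl fun j _ => h1 j, sum_sub_distrib, sub_eq_zero]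
  have e1 : ∑ i ∈ range (s + n), γ i = ∑ j ∈ range n, γ (s + j) := by
    rw [sum_range_add, sum_eq_zero, zero_add]
    intro i hi
    refine hγ i fun h => ?_
    rw [mem_range] at hi
    omega
  have e2 : ∑ i ∈ range (n + s), γ i = ∑ j ∈ range n, γ j := by
    rw [sum_range_add, add_eq_left]
    refine sum_eq_zero fun i _ => hγ _ fun h => ?_
    omega
  rw [← e1, ← e2, add_comm s n]

theorem sum_ext (y : Fin (2 * n) → ZMod p) : ∑ v ∈ range (2 * n), ext y v = ∑ v, y v := by
  rw [Finset.sum_range]
  exact Finset.sum_congr rfl fun v _ => ext_coe y v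

/-- Isomorphic comparability graphs have the same sum. -/
theorem sum_eq_of_iso (hn : 0 < n) (hsn : s ≤ n) {β β' : Fin (2 * n) → ZMod p}
    (f : gr (s := s) β ≃g gr (s := s) β') : ∑ v, β v = ∑ v, β' v := by
  obtain ⟨φ, hsz, hadj⟩ := exists_phi f
  obtain ⟨γ, hγ, h⟩ := labels hsz hadj hn hsn
  have h1 := h (2 * n) (by omega) 0
  have h2 : φ (T ⟨2 * n, by omega⟩ 0) = T ⟨2 * n, by omega⟩ 0 :=
    size_T2_eq hn rfl (hsz _)
  rw [h2] at h1
  simp only [T.injEq, true_and, zero_add] at h1
  rw [sum_add_distrib, side_sum hsn γ hγ, zero_add, sum_ext, sum_sub_distrib] at h1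
  exact (sub_eq_zero.1 h1.symm).symm

end Pool.Agent.Helper55.BW
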