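import Pool.Agent.Helper55.BW.Grid
import Pool.Graph.R_seed8.TH658.Dg.Im
import Pool.Graph.R_seed8.TH658.Dg.Pc

/-!
# The partially ordered sets

For every edge of the helical grid there is a class of `p` elements, for every node a class of `p ^ 2`
elements (the local flows). The classes of the path (edges `T τ` and nodes) are placed one after the
other; the class of `D i` is parallel to the part of the path between the ends of `D i`.
-/

set_option autoImplicit false
set_option linter.unusedSectionVars false

namespace Pool.Agent.Helper55.BW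

open Finset Pool.Agent.TH658.Sos Pool.Agent.TH658.Dg

/-- The elements before they are replaced by chains. -/
inductive Vx (n s p : ℕ) : Type
  | T (τ : Fin (2 * n + 1)) (c : ZMod p)
  | N (v : Fin (2 * n)) (a q : ZMod p)
  | D (i : Fin (n + s)) (c : ZMod p)
  deriving DecidableEq

variable {n s p : ℕ}

namespace Vx

/-- The elements as a sum type. -/
def equiv : Vx n s p ≃ (Fin (2 * n + 1) × ZMod p) ⊕
    ((Fin (2 * n) × ZMod p × ZMod p) ⊕ (Fin (n + s) × ZMod p)) where
  toFun
    | T τ c => .inl (τ, c)
    | N v a q => .inr (.inl (v, a, q))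
    | D i c => .inr (.inr (i, c))
  invFun
    | .inl (τ, c) => T τ c
    | .inr (.inl (v, a, q)) => N v a q
    | .inr (.inr (i, c)) => D i c
  left_inv := by rintro (⟨τ, c⟩ | ⟨v, a, q⟩ | ⟨i, c⟩) <;> rfl
  right_inv := by rintro (⟨τ, c⟩ | ⟨v, a, q⟩ | ⟨i, c⟩) <;> rfl

noncomputable instance [NeZero p] : Fintype (Vx n s p) := Fintype.ofEquiv _ equiv.symm

theorem card [NeZero p] : Fintype.card (Vx n s p) =
    (2 * n + 1) * p + (2 * n * (p * p) + (n + s) * p) := by
  rw [Fintype.card_congr equiv]
  simp [Fintype.card_sum, Fintype.card_prod, ZMod.card]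

end Vx

open Vx

variable [Fact p.Prime]

/-- The value that leaves a node. -/
def out (β : Fin (2 * n) → ZMod p) (v : Fin (2 * n)) (a q : ZMod p) : ZMod p :=
  a + sgn (ZMod p) v.1 * q + β v

/-- The strict order. -/
def lt (β : Fin (2 * n) → ZMod p) : Vx n s p → Vx n s p → Prop
  | T τ _, T τ' _ => τ.1 < τ'.1
  | T τ c, N v a _ => τ.1 < v.1 ∨ (τ.1 = v.1 ∧ a = c)
  | N v a q, T τ c => v.1 + 1 < τ.1 ∨ (v.1 + 1 = τ.1 ∧ out β v a q = c)
  | N v _ _, N v' _ _ => v.1 < v'.1
  | T τ _, D i _ => 2 * s + τ.1 ≤ 2 * i.1
  | N v _ q, D i c => 2 * s + v.1 < 2 * i.1 ∨ (2 * s + v.1 = 2 * i.1 ∧ q = c)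
  | D i _, T τ _ => 2 * i.1 + 1 < τ.1
  | D i c, N v _ q => 2 * i.1 + 1 < v.1 ∨ (2 * i.1 + 1 = v.1 ∧ q = c)
  | D i _, D j _ => i.1 < j.1

theorem lt_irrefl (β : Fin (2 * n) → ZMod p) (x : Vx n s p) : ¬ lt β x x := by
  cases x <;> simp [lt]

theorem lt_trans' (β : Fin (2 * n) → ZMod p) {x y z : Vx n s p} (h1 : lt β x y)
    (h2 : lt β y z) : lt β x z := by
  cases x <;> cases y <;> cases z <;> simp only [lt] at h1 h2 ⊢ <;> omega

/-- The shifts of the values. -/
def act (M : Ed n s → ZMod p) : Vx n s p → Vx n s p
  | T τ c => T τ (c + bar M (.inl τ))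
  | N v a q => N v (a + bar M (inE v)) (q + bar M (sideE v))
  | D i c => D i (c + bar M (.inr i))

theorem act_add (M M' : Ed n s → ZMod p) (x : Vx n s p) : act (M + M') x = act M (act M' x) := by
  cases x <;> simp only [act, bar_add] <;> congr 1 <;> ring

theorem act_zero (x : Vx n s p) : act (0 : Ed n s → ZMod p) x = x := by
  cases x <;> simp only [act, bar_zero, add_zero]

/-- The shifts as bijections. -/
def actE (M : Ed n s → ZMod p) : Vx n s p ≃ Vx n s p where
  toFun := act M
  invFun := act (-M)
  left_inv x := by rw [← act_add, neg_add_cancel, act_zero]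
  right_inv x := by rw [← act_add, add_neg_cancel, act_zero]

/-- The set of edges an element depends on. -/
def lev : Vx n s p → Finset (Ed n s)
  | T τ _ => {.inl τ}
  | N v _ _ => {inE v, outE v, sideE v}
  | D i _ => {.inr i}

theorem lev_act (M : Ed n s → ZMod p) (x : Vx n s p) : lev (act M x) = lev x := by
  cases x <;> rfl

theorem lev_card (x : Vx n s p) : (lev x).card ≤ 3 := by
  cases x with
  | T τ c => simp [lev]
  | N v a q => exact Finset.card_le_three
  | D i c => simp [lev]

theorem bar_congr {M : Ed n s → ZMod p} {e : Ed n s} (h : M e = 0) : bar M e = 0 := by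
  unfold bar
  split_ifs
  · exact h
  · rfl

theorem act_inv (M m : Ed n s → ZMod p) (x : Vx n s p) (h : ∀ e ∈ lev x, m e = 0) :
    act (M + m) x = act M x := by
  rw [act_add]
  congr 1
  cases x with
  | T τ c =>
    have h1 := bar_congr (h (.inl τ) (by simp [lev]))
    simp only [act, h1, add_zero]
  | N v a q =>
    have h1 := bar_congr (h (inE v) (by simp [lev]))
    have h2 := bar_congr (h (sideE v) (by simp [lev]))
    simp only [act, h1, h2, add_zero]
  | D i c =>
    have h1 := bar_congr (h (.inr i) (by simp [lev]))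
    simp only [act, h1, add_zero]

/-- The condition on a shift at the level `W`. -/
def Flow (b : Fin (2 * n) → ZMod p) (W : Finset (Ed n s)) (M : Ed n s → ZMod p) : Prop :=
  ∀ v : Fin (2 * n), inE v ∈ W → outE v ∈ W → sideE v ∈ W →
    bar M (outE v) = bar M (inE v) + sgn (ZMod p) v.1 * bar M (sideE v) + b v

theorem out_act {β β' : Fin (2 * n) → ZMod p} {M : Ed n s → ZMod p} (v : Fin (2 * n))
    (h : bar M (outE v) = bar M (inE v) + sgn (ZMod p) v.1 * bar M (sideE v) + (β' v - β v))
    (a q : ZMod p) :
    out β' v (a + bar M (inE v)) (q + bar M (sideE v)) = out β v a q + bar M (outE v) := by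
  unfold out
  rw [h]
  ring

theorem sideE_even {v : Fin (2 * n)} {i : Fin (n + s)} (h : 2 * s + v.1 = 2 * i.1) :
    (sideE v : Ed n s) = .inr i := by
  unfold sideE
  congr 1
  apply Fin.ext
  show sideN s v.1 = i.1
  unfold sideN
  rw [if_pos (by omega)]
  omega

theorem sideE_odd {v : Fin (2 * n)} {i : Fin (n + s)} (h : 2 * i.1 + 1 = v.1) :
    (sideE v : Ed n s) = .inr i := by
  unfold sideE
  congr 1
  apply Fin.ext
  show sideN s v.1 = i.1
  unfold sideN
  rw [if_neg (by omega)]
  omega

theorem inE_eq {v : Fin (2 * n)} {τ : Fin (2 * n + 1)} (h : τ.1 = v.1) :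
    (inE v : Ed n s) = .inl τ := by
  unfold inE
  congr 1
  exact Fin.ext h.symm

theorem outE_eq {v : Fin (2 * n)} {τ : Fin (2 * n + 1)} (h : v.1 + 1 = τ.1) :
    (outE v : Ed n s) = .inl τ := by
  unfold outE
  congr 1
  exact Fin.ext h

/-- Shifts are local isomorphisms. -/
theorem lt_act {β β' : Fin (2 * n) → ZMod p} {M : Ed n s → ZMod p} (x y : Vx n s p)
    (h : Flow (fun v => β' v - β v) (lev x ∪ lev y) M) :
    lt β x y ↔ lt β' (act M x) (act M y) := by
  cases x with
  | T τ c =>
    cases y with
    | T τ' c' => simp only [act, lt]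
    | N v a q =>
      simp only [act, lt]
      refine or_congr Iff.rfl (and_congr_right fun h1 => ?_)
      rw [inE_eq h1, add_left_inj]
    | D i c' => simp only [act, lt]
  | N v a q =>
    cases y with
    | T τ c =>
      simp only [act, lt]
      refine or_congr Iff.rfl (and_congr_right fun h1 => ?_)
      have h2 := h v (by simp [lev]) (by simp [lev]) (by simp [lev])
      rw [out_act v h2, outE_eq h1, add_left_inj]
    | N v' a' q' => simp only [act, lt]
    | D i c =>
      simp only [act, lt]
      refine or_congr Iff.rfl (and_congr_right fun h1 => ?_)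
      rw [sideE_even h1, add_left_inj]
  | D i c =>
    cases y with
    | T τ c' => simp only [act, lt]
    | N v a q =>
      simp only [act, lt]
      refine or_congr Iff.rfl (and_congr_right fun h1 => ?_)
      rw [sideE_odd h1, add_left_inj]
    | D j c' => simp only [act, lt]

/-- The number of copies of an element. -/
def size : Vx n s p → ℕ
  | T τ c => if τ.1 = 0 then 6 + c.val else if τ.1 = 2 * n then 6 + p + c.val
      else if τ.1 % 2 = 0 then 3 else 4
  | N v _ _ => if v.1 % 2 = 0 then 1 else 2
  | D i c => if s ≤ i.1 ∧ i.1 < n then 5 else 6 + 2 * p + c.val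

theorem size_act (M : Ed n s → ZMod p) (x : Vx n s p) : size (act M x) = size x := by
  cases x with
  | T τ c =>
    simp only [act, size]
    by_cases h : intl (.inl τ : Ed n s)
    · have h1 : ¬ τ.1 = 0 := by have := h.1; omega
      have h2 : ¬ τ.1 = 2 * n := by have := h.2; omega
      simp only [h1, h2, if_false]
    · have h1 : bar M (.inl τ) = 0 := by unfold bar; rw [if_neg h]
      rw [h1, add_zero]
  | N v a q => rfl
  | D i c =>
    simp only [act, size]
    by_cases h : intl (.inr i : Ed n s)
    · have h1 : s ≤ i.1 ∧ i.1 < n := h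
      rw [if_pos h1, if_pos h1]
    · have h1 : bar M (.inr i) = 0 := by unfold bar; rw [if_neg h]
      rw [h1, add_zero]

theorem size_pos (x : Vx n s p) : 0 < size x := by
  cases x <;> simp only [size] <;> split_ifs <;> omega

theorem size_le (x : Vx n s p) : size x ≤ 6 + 3 * p := by
  have hv : ∀ c : ZMod p, c.val < p := fun c => ZMod.val_lt c
  have hp : 2 ≤ p := (Fact.out : p.Prime).two_le
  cases x with
  | T τ c => simp only [size]; have := hv c; split_ifs <;> omega
  | N v a q => simp only [size]; split_ifs <;> omega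
  | D i c => simp only [size]; have := hv c; split_ifs <;> omega

/-- The vertices: every element is replaced by a chain. -/
abbrev Wx (n s p : ℕ) [Fact p.Prime] : Type :=
  {w : Vx n s p × Fin (6 + 3 * p) // w.2.1 < size w.1}

/-- The strict order on the vertices. -/
def rel (β : Fin (2 * n) → ZMod p) (u w : Wx n s p) : Prop :=
  lt β u.1.1 w.1.1 ∨ (u.1.1 = w.1.1 ∧ u.1.2 < w.1.2)

theorem rel_irrefl (β : Fin (2 * n) → ZMod p) (u : Wx n s p) : ¬ rel β u u := by
  rintro (h | h)
  · exact lt_irrefl β _ h
  · exact absurd h.2 (lt_self_iff_false _).1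

theorem rel_trans (β : Fin (2 * n) → ZMod p) {u v w : Wx n s p} (h1 : rel β u v)
    (h2 : rel β v w) : rel β u w := by
  rcases h1 with h1 | ⟨h1, h1'⟩
  · rcases h2 with h2 | ⟨h2, h2'⟩
    · exact Or.inl (lt_trans' β h1 h2)
    · exact Or.inl (h2 ▸ h1)
  · rcases h2 with h2 | ⟨h2, h2'⟩
    · exact Or.inl (h1 ▸ h2)
    · exact Or.inr ⟨h1.trans h2, h1'.trans h2'⟩

/-- The comparability graph. -/
def gr (β : Fin (2 * n) → ZMod p) : SimpleGraph (Wx n s p) where
  Adj u w := rel β u w ∨ rel β w u
  symm := ⟨fun u w h => h.symm⟩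
  loopless := ⟨fun u h => by
    rcases h with h | h <;> exact rel_irrefl β u h⟩

/-- The shifts of the vertices. -/
def actW (M : Ed n s → ZMod p) : Wx n s p ≃ Wx n s p where
  toFun w := ⟨(act M w.1.1, w.1.2), by rw [size_act]; exact w.2⟩
  invFun w := ⟨(act (-M) w.1.1, w.1.2), by rw [size_act]; exact w.2⟩
  left_inv w := by
    apply Subtype.ext
    refine Prod.ext ?_ rfl
    show act (-M) (act M w.1.1) = w.1.1
    rw [← act_add, neg_add_cancel, act_zero]
  right_inv w := by
    apply Subtype.ext
    refine Prod.ext ?_ rfl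
    show act M (act (-M) w.1.1) = w.1.1
    rw [← act_add, add_neg_cancel, act_zero]

theorem rel_act {β β' : Fin (2 * n) → ZMod p} {M : Ed n s → ZMod p} (u w : Wx n s p)
    (h : Flow (fun v => β' v - β v) (lev u.1.1 ∪ lev w.1.1) M) :
    rel β u w ↔ rel β' (actW M u) (actW M w) := by
  unfold rel
  refine or_congr (lt_act _ _ h) (and_congr ?_ Iff.rfl)
  show u.1.1 = w.1.1 ↔ act M u.1.1 = act M w.1.1
  exact ((actE M).injective.eq_iff).symm

/-- The level of a vertex. -/
def levW (w : Wx n s p) : Finset (Ed n s) := lev w.1.1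

theorem levW_act (M : Ed n s → ZMod p) (w : Wx n s p) : levW (actW M w) = levW w :=
  lev_act M w.1.1

theorem actW_inv (M m : Ed n s → ZMod p) (w : Wx n s p) (h : ∀ e ∈ levW w, m e = 0) :
    actW (M + m) w = actW M w := by
  apply Subtype.ext
  refine Prod.ext ?_ rfl
  exact act_inv M m w.1.1 h

theorem flow_of_sol {s : ℕ} (hs : 0 < s) (b : Fin (2 * (s * s)) → ZMod p)
    {W : Finset (Ed (s * s) s)} {M : Ed (s * s) s → ZMod p}
    (hM : M ∈ ((haven (ZMod p) s hs).sys b).Sol W) : Flow b W M :=
  fun v h1 h2 h3 => node_eq hs b hM v h1 h2 h3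

theorem adj_act {β β' : Fin (2 * n) → ZMod p} {M : Ed n s → ZMod p} (u w : Wx n s p)
    (h : Flow (fun v => β' v - β v) (levW u ∪ levW w) M) :
    (gr β).Adj u w ↔ (gr β').Adj (actW M u) (actW M w) := by
  refine or_congr (rel_act u w h) (rel_act w u ?_)
  rw [Finset.union_comm]
  exact h

/-- The local isomorphisms of the comparability graphs. -/
noncomputable def actG {s : ℕ} (hs : 0 < s) (β β' : Fin (2 * (s * s)) → ZMod p) :
    Act ((haven (ZMod p) s hs).sys fun v => β' v - β v) (gr (s := s) β).Adj (gr (s := s) β').Adj where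
  b := actW
  lv := levW
  lv' := levW
  c := 3
  inv M m u hm := actW_inv M m u hm
  lev M u := levW_act M u
  size u := lev_card u.1.1
  iso u u' M hM := adj_act u u' (flow_of_sol hs _ hM)

/-- The local isomorphisms of the incomparability graphs. -/
noncomputable def actC {s : ℕ} (hs : 0 < s) (β β' : Fin (2 * (s * s)) → ZMod p) :
    Act ((haven (ZMod p) s hs).sys fun v => β' v - β v) (gr (s := s) β)ᶜ.Adj (gr (s := s) β')ᶜ.Adj where
  b := actW
  lv := levW
  lv' := levW
  c := 3
  inv M m u hm := actW_inv M m u hm
  lev M u := levW_act M u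
  size u := lev_card u.1.1
  iso u u' M hM := by
    rw [SimpleGraph.compl_adj, SimpleGraph.compl_adj]
    exact and_congr (not_congr (actW M).injective.eq_iff.symm)
      (not_congr (adj_act u u' (flow_of_sol hs _ hM)))

theorem torsor_aux (M h : Ed n s → ZMod p) (u : Wx n s p) :
    actW (M + h) u = actW M ((actW 0).symm (actW h u)) := by
  apply Subtype.ext
  refine Prod.ext ?_ rfl
  show act (M + h) u.1.1 = act M (act (-0) (act h u.1.1))
  rw [neg_zero, act_zero, act_add]

theorem actG_torsor {s : ℕ} (hs : 0 < s) (β β' : Fin (2 * (s * s)) → ZMod p) :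
    (actG hs β β').Torsor := torsor_aux

theorem actC_torsor {s : ℕ} (hs : 0 < s) (β β' : Fin (2 * (s * s)) → ZMod p) :
    (actC hs β β').Torsor := torsor_aux

/-- The chain of an element. -/
def chain (β : Fin (2 * n) → ZMod p) : Vx n s p → (ZMod p × ZMod p) ⊕ ZMod p
  | T τ c => .inl (if τ.1 % 2 = 0 then (c, 0) else (0, c))
  | N v a q => .inl (if v.1 % 2 = 0 then (a, out β v a q) else (out β v a q, a))
  | D _ c => .inr c

theorem out_inj {β : Fin (2 * n) → ZMod p} {v : Fin (2 * n)} {a q q' : ZMod p}
    (h : out β v a q = out β v a q') : q = q' := by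
  unfold out sgn at h
  split_ifs at h
  · simpa using h
  · simpa using h

/-- Two elements of the same chain are comparable. -/
theorem chain_lt (β : Fin (2 * n) → ZMod p) {x y : Vx n s p} (hxy : x ≠ y)
    (h : chain β x = chain β y) : lt β x y ∨ lt β y x := by
  cases x with
  | T τ c =>
    cases y with
    | T τ' c' =>
      simp only [lt]
      by_contra hc
      have h1 : τ = τ' := Fin.ext (by omega)
      subst h1
      apply hxy
      congr 1
      simp only [chain, Sum.inl.injEq] at h
      split_ifs at h
      · exact congrArg Prod.fst h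
      · exact congrArg Prod.snd h
    | N v a q =>
      simp only [lt]
      simp only [chain, Sum.inl.injEq] at h
      by_cases h1 : τ.1 = v.1
      · left; right
        refine ⟨h1, ?_⟩
        rw [h1] at h
        split_ifs at h
        · exact (congrArg Prod.fst h).symm
        · exact (congrArg Prod.snd h).symm
      · by_cases h2 : v.1 + 1 = τ.1
        · right; right
          refine ⟨h2, ?_⟩
          rw [← h2] at h
          by_cases h3 : v.1 % 2 = 0
          · rw [if_neg (by omega), if_pos h3] at h
            exact (congrArg Prod.snd h).symm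
          · rw [if_pos (by omega), if_neg h3] at h
            exact (congrArg Prod.fst h).symm
        · omega
    | D i c' => simp [chain] at h
  | N v a q =>
    cases y with
    | T τ c =>
      simp only [lt]
      simp only [chain, Sum.inl.injEq] at h
      by_cases h1 : τ.1 = v.1
      · right; right
        refine ⟨h1, ?_⟩
        rw [h1] at h
        split_ifs at h
        · exact (congrArg Prod.fst h)
        · exact (congrArg Prod.snd h)
      · by_cases h2 : v.1 + 1 = τ.1
        · left; right
          refine ⟨h2, ?_⟩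
          rw [← h2] at h
          by_cases h3 : v.1 % 2 = 0
          · rw [if_neg (show ¬ (v.1 + 1) % 2 = 0 by omega), if_pos h3] at h
            exact (congrArg Prod.snd h)
          · rw [if_pos (show (v.1 + 1) % 2 = 0 by omega), if_neg h3] at h
            exact (congrArg Prod.fst h)
        · omega
    | N v' a' q' =>
      simp only [lt]
      by_contra hc
      have h1 : v = v' := Fin.ext (by omega)
      subst h1
      apply hxy
      simp only [chain, Sum.inl.injEq] at h
      have h2 : a = a' ∧ out β v a q = out β v a' q' := by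
        split_ifs at h
        · exact ⟨congrArg Prod.fst h, congrArg Prod.snd h⟩
        · exact ⟨congrArg Prod.snd h, congrArg Prod.fst h⟩
      obtain ⟨h3, h4⟩ := h2
      subst h3
      rw [out_inj h4]
    | D i c' => simp [chain] at h
  | D i c =>
    cases y with
    | T τ c' => simp [chain] at h
    | N v a q => simp [chain] at h
    | D j c' =>
      simp only [lt]
      by_contra hc
      have h1 : i = j := Fin.ext (by omega)
      subst h1
      apply hxy
      simp only [chain, Sum.inr.injEq] at h
      rw [h]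

end Pool.Agent.Helper55.BW
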